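import Pool.Agent.P.MP_50039c_nt.LV.IfaceA

/-! Step CUB. -/

set_option autoImplicit false
set_option linter.unusedSectionVars false

namespace Pool.Agent.P.MP_50039c_nt.LV

open Module

universe u

namespace CUBx

theorem tor {K : Type u} [Field K] (u p q r s : K) (hu : u ≠ 0) (hY : r * s ≠ 0)
    (h : p * q = u ^ 2 * (r * s)) : Tor u (u / (q / s)) (p / r) (q / s) := by
  have hr : r ≠ 0 := left_ne_zero_of_mul hY
  have hs : s ≠ 0 := right_ne_zero_of_mul hY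
  have hq : q ≠ 0 := right_ne_zero_of_mul (h ▸ mul_ne_zero (pow_ne_zero 2 hu) hY)
  refine ⟨hu, div_ne_zero hu (div_ne_zero hq hs), ?_, ?_⟩
  · field_simp
    linear_combination -h
  · field_simp

theorem core {K : Type u} [Field K] (h2 : (2 : K) ≠ 0) (I e1 e2 e3 a b c : K) (hI : I ^ 2 = -1)
    (hs : e1 ^ 2 + e2 ^ 2 + e3 ^ 2 = 1) (ha : a ≠ 0) (hb : b ≠ 0) (hc : c ≠ 0)
    (h1 : e1 - 1 = -a ^ 2 * (e1 + 1)) (h1' : e1 + 1 ≠ 0)
    (h3 : e3 - 1 = -c ^ 2 * (e3 + 1)) (h3' : e3 + 1 ≠ 0)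
    (h2a : 1 - e2 = b ^ 2 * (1 + e2)) (h2' : 1 + e2 ≠ 0) :
    ∃ f g : K, Tor (g / b) b⁻¹ f g ∧
      Tor (I * a) (I * a / ((g - 1) / (g + 1))) ((f - 1) / (f + 1)) ((g - 1) / (g + 1)) ∧
      Tor (I * c) (I * c / ((g - I) / (g + I))) ((f - I) / (f + I)) ((g - I) / (g + I)) := by
  have hI0 : I ≠ 0 := by
    rintro rfl
    simp at hI
  have hm : 1 - e2 ≠ 0 := h2a ▸ mul_ne_zero (pow_ne_zero 2 hb) h2'
  have hz : e1 - I * e3 ≠ 0 := fun h0 => mul_ne_zero hm h2' (by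
    linear_combination (e1 + I * e3) * h0 - hs + e3 ^ 2 * hI)
  obtain ⟨w, hw⟩ : ∃ w, w * (e1 - I * e3) = 1 := ⟨_, inv_mul_cancel₀ hz⟩
  have hw0 : w ≠ 0 := left_ne_zero_of_mul (hw ▸ one_ne_zero)
  have hp : (1 + e2) * w * ((1 - e2) * w) = (e1 + I * e3) * w := by
    linear_combination (e1 + I * e3) * w * hw - w ^ 2 * hs + (w * e3) ^ 2 * hI
  refine ⟨(1 + e2) * w, (1 - e2) * w, ⟨div_ne_zero (mul_ne_zero hm hw0) hb, inv_ne_zero hb, ?_, ?_⟩,
    tor _ _ _ _ _ (mul_ne_zero hI0 ha) ?_ ?_, tor _ _ _ _ _ (mul_ne_zero hI0 hc) ?_ ?_⟩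
  · rw [h2a]
    field_simp
  · field_simp
  · have : ((1 + e2) * w + 1) * ((1 - e2) * w + 1) = 2 * (e1 + 1) * w := by
      linear_combination hp - hw
    rw [this]
    exact mul_ne_zero (mul_ne_zero h2 h1') hw0
  · have e : ((1 + e2) * w + 1) * ((1 - e2) * w + 1) = 2 * (e1 + 1) * w := by
      linear_combination hp - hw
    rw [e]
    linear_combination hp - hw + 2 * w * h1 - a ^ 2 * (2 * (e1 + 1) * w) * hI
  · have : ((1 + e2) * w + I) * ((1 - e2) * w + I) = 2 * I * (e3 + 1) * w := by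
      linear_combination hp + hw + hI
    rw [this]
    exact mul_ne_zero (mul_ne_zero (mul_ne_zero h2 hI0) h3') hw0
  · have e : ((1 + e2) * w + I) * ((1 - e2) * w + I) = 2 * I * (e3 + 1) * w := by
      linear_combination hp + hw + hI
    rw [e]
    linear_combination hp + hw + hI + 2 * I * w * h3 - c ^ 2 * (2 * I * (e3 + 1) * w) * hI

end CUBx

theorem p_CUB (L : Type u) [Field L] [IsAlgClosed L] [CharZero L] :
    S_CUB L := by
  intro K _ _ i α β γ hi ha hb hA hB hC hm hp hQ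
  have : CharZero K := charZero_of_injective_algebraMap (algebraMap L K).injective
  have hI : algebraMap L K i ^ 2 = -1 := by rw [← map_pow, hi]; simp
  have e1 : (1 - α ^ 2) / (1 + α ^ 2) + 1 = 2 / (1 + α ^ 2) := by field_simp; ring
  have e2 : 1 + (1 - β ^ 2) / (1 + β ^ 2) = 2 / (1 + β ^ 2) := by field_simp; ring
  have e3 : 2 * γ / (1 + γ ^ 2) + 1 = (1 + γ) ^ 2 / (1 + γ ^ 2) := by field_simp; ring
  obtain ⟨f, g, t0, t1, t2⟩ := CUBx.core (K := K) two_ne_zero (algebraMap L K i)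
    ((1 - α ^ 2) / (1 + α ^ 2)) ((1 - β ^ 2) / (1 + β ^ 2)) (2 * γ / (1 + γ ^ 2)) α β
    ((1 - γ) / (1 + γ)) hI (by
      rw [QQ] at hQ
      field_simp
      linear_combination hQ) ha hb (div_ne_zero hm hp)
    (by rw [e1]; field_simp; ring) (by rw [e1]; exact div_ne_zero two_ne_zero hA)
    (by rw [e3]; field_simp; ring) (by rw [e3]; exact div_ne_zero (pow_ne_zero 2 hp) hC)
    (by rw [e2]; field_simp; ring) (by rw [e2]; exact div_ne_zero two_ne_zero hB)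
  refine ⟨f, g, ![g / β, algebraMap L K i * α, algebraMap L K i * ((1 - γ) / (1 + γ))],
    ![β⁻¹, algebraMap L K i * α / ((g - 1) / (g + 1)), algebraMap L K i * ((1 - γ) / (1 + γ)) /
      ((g - algebraMap L K i) / (g + algebraMap L K i))], fun j => ?_, rfl, rfl,
    (mul_div_assoc _ _ _).symm⟩
  fin_cases j
  · exact t0
  · exact t1
  · exact t2

end Pool.Agent.P.MP_50039c_nt.LV
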