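import Pool.Agent.P.MP_50039c_nt.LV.Base

/-! The local steps. -/

set_option autoImplicit false

namespace Pool.Agent.P.MP_50039c_nt.LV

open Module

universe u

variable (L : Type u) [Field L]

-- deps:
def S_ONEA : Prop := ∀ (K : Type u) [Field K] [Algebra L K] (P : Loc L K) (i c : L) (f : K),
  i ^ 2 = -1 → Transcendental L f → f - algebraMap L K c ∈ P.m → c ^ 4 ≠ 1 → One P i f

-- deps:
def S_ONEB : Prop := ∀ (K : Type u) [Field K] [Algebra L K] (P : Loc L K) (i c : L) (f : K),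
  i ^ 2 = -1 → Transcendental L f → f - algebraMap L K c ∈ P.m → c ^ 4 = 1 → One P i f

-- deps:
def S_ONEI : Prop := ∀ (K : Type u) [Field K] [Algebra L K] (P : Loc L K) (i : L) (f : K),
  i ^ 2 = -1 → Transcendental L f → f⁻¹ ∈ P.m → One P i f

-- deps:
def S_TN : Prop := ∀ (K : Type u) [Field K] [Algebra L K] (P : Loc L K) (u v A B : K),
  Tor u v A B → P.PM u → P.PM v → P.Un A → P.Un B →
    ∀ Z, P.Sq Z → A ∈ Z → B ∈ Z → P.In Z u ∧ P.In Z v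

-- deps:
def S_TA : Prop := ∀ (K : Type u) [Field K] [Algebra L K] (P : Loc L K) (u v A B s : K),
  Tor u v A B → P.PM u → P.PM v → s ∈ P.m → s ≠ 0 → (A = s ∨ A = s⁻¹) → P.Un B →
    ∃ p ∈ P.m, p ^ 2 = s * B ∧ ∀ Z, P.Sq Z → p ∈ Z → P.In Z u ∧ P.In Z v

-- deps:
def S_TAB : Prop := ∀ (K : Type u) [Field K] [Algebra L K] (P : Loc L K) (u v A B s t : K),
  Tor u v A B → P.PM u → P.PM v → s ∈ P.m → s ≠ 0 → t ∈ P.m → t ≠ 0 → (A = s ∨ A = s⁻¹) →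
    (B = t ∨ B = t⁻¹) → ∃ p ∈ P.O, ∃ q ∈ P.O, ∃ κ : K,
      (∀ Z, P.Sq Z → p ∈ Z → q ∈ Z → s ∈ Z ∧ t ∈ Z ∧ P.In Z u ∧ P.In Z v) ∧
      (∀ D E : Derivation L K K, jac D E s t = κ * jac D E p q) ∧ κ ^ 2 / (s * t) ∈ P.O

-- deps:
def S_TMIX : Prop := ∀ (K : Type u) [Field K] [Algebra L K] (P : Loc L K) (s t p q w w' : K),
  s ∈ P.m → s ≠ 0 → t ∈ P.m → t ≠ 0 →
  ((p = s ∧ w = 1) ∨ (w = s ∧ ∃ B, P.Un B ∧ p ^ 2 = s * B ∧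
    ∃ β ∈ P.O, ∀ D : Derivation L K K, D B = β * D t)) →
  ((q = t ∧ w' = 1) ∨ (w' = t ∧ ∃ A, P.Un A ∧ q ^ 2 = t * A ∧
    ∃ α ∈ P.O, ∀ D : Derivation L K K, D A = α * D s)) →
  ∃ κ : K, (∀ D E : Derivation L K K, jac D E s t = κ * jac D E p q) ∧ κ ^ 2 / (w * w') ∈ P.O

-- deps: TN TA TAB TMIX
def S_TWO : Prop := ∀ (K : Type u) [Field K] [Algebra L K] (P : Loc L K) (A B u v : Fin 3 → K)
  (H : Half P A) (H' : Half P B),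
  (∀ j, Tor (u j) (v j) (A j) (B j) ∧ P.PM (u j) ∧ P.PM (v j)) → ∃ p ∈ P.O, ∃ q ∈ P.O, ∃ κ : K,
    (∀ Z, P.Sq Z → p ∈ Z → q ∈ Z → H.s ∈ Z ∧ H'.s ∈ Z ∧ ∀ j, P.In Z (u j) ∧ P.In Z (v j)) ∧
    (∀ D E : Derivation L K K, jac D E H.s H'.s = κ * jac D E p q) ∧ κ ^ 2 / (H.w * H'.w) ∈ P.O

-- deps:
def S_CUB : Prop := ∀ (K : Type u) [Field K] [Algebra L K] (i : L) (α β γ : K), i ^ 2 = -1 →
  α ≠ 0 → β ≠ 0 → 1 + α ^ 2 ≠ 0 → 1 + β ^ 2 ≠ 0 → 1 + γ ^ 2 ≠ 0 → 1 - γ ≠ 0 → 1 + γ ≠ 0 →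
  QQ (α ^ 2) (β ^ 2) (γ ^ 2) 1 = 0 → ∃ (f g : K) (u v : Fin 3 → K),
    (∀ j, Tor (u j) (v j) (mob i f j) (mob i g j)) ∧ v 0 = β⁻¹ ∧ u 1 = algebraMap L K i * α ∧
      u 2 = algebraMap L K i * (1 - γ) / (1 + γ)

-- deps:
def S_TB : Prop := ∀ (K : Type u) [Field K] [Algebra L K] (i : L) (f g : K) (u v : Fin 3 → K),
  (∀ j, Tor (u j) (v j) (mob i f j) (mob i g j)) →
  IntermediateField.adjoin L (Set.range u ∪ Set.range v) = ⊤ → 2 ≤ Algebra.trdeg L K →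
    IsTranscendenceBasis L ![f, g]

-- deps:
def S_MIN : Prop := ∀ (ι : Type) [Fintype ι] (c : ℕ) (A : Fin c → ι → L), LinearIndependent L A →
  ∃ J : Fin c → ι, (Matrix.of fun i j => A i (J j)).det ≠ 0

-- deps: MIN
def S_LIN : Prop := ∀ (Γ : Type u) (c e M : ℕ) (g : Γ → Fin M → L) (l : Fin e → Fin M → L),
  c + e = M → (∀ v, (∀ γ, g γ ⬝ᵥ v = 0) → (∀ k, l k ⬝ᵥ v = 0) → v = 0) →
    ∃ (G : Fin c → Γ) (J : Fin c → Fin M), (Matrix.of fun i j => g (G i) (J j)).det ≠ 0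

-- deps:
def S_EVEN : Prop := ∀ (K : Type u) [Field K] [Algebra L K]
  (v : Valuation K (WithZero (Multiplicative ℤ))) (a b c m : K),
  QQ (a ^ 2) (b ^ 2) (c ^ 2) (m ^ 2) = 0 → v m = v a ∨ v m = v b ∨ v m = v c

end Pool.Agent.P.MP_50039c_nt.LV
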