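import Pool.Agent.P.MP_50039c_nt.LV.IfaceB
import Pool.Agent.P.MP_50039c_nt.LV.IfaceA

/-! Step DEG. -/

set_option autoImplicit false
set_option linter.unusedSectionVars false

namespace Pool.Agent.P.MP_50039c_nt.LV

open MvPolynomial Module Pool.Agent.P.MP_6f117a_ag PJ
open scoped IntermediateField

universe u

namespace DEGx

theorem hom (L : Type u) [Field L] :
    (QQ (X 0 ^ 2) (X 1 ^ 2) (X 2 ^ 2) (X 3 ^ 2) : MvPolynomial (Fin 4) L).IsHomogeneous 12 := by
  have h : ∀ j : Fin 4, (X j ^ 2 : MvPolynomial (Fin 4) L).IsHomogeneous 2 :=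
    fun j => isHomogeneous_X_pow j 2
  have h2 : ∀ j : Fin 4, ((X 3 ^ 2 + X j ^ 2) ^ 2 : MvPolynomial (Fin 4) L).IsHomogeneous 4 :=
    fun j => ((h 3).add (h j)).pow 2
  have h4 : (4 : MvPolynomial (Fin 4) L).IsHomogeneous 0 := by
    simpa only [map_ofNat] using isHomogeneous_C (Fin 4) (4 : L)
  exact ((((h2 0).mul (h2 1)).sub ((h4.mul (h 3)).mul
    (((h 0).mul (h2 1)).add ((h 1).mul (h2 0))))).mul (h2 2)).add
    ((((h4.mul (h 2)).mul (h 3)).mul (h2 0)).mul (h2 1))

end DEGx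

theorem p_DEG (L : Type u) [Field L] [IsAlgClosed L] [CharZero L]
    (hPLANE : S_PLANE L) (hCUB : S_CUB L) (hTB : S_TB L) (hGT : S_GT L) :
    S_DEG L := by
  intro K _ _ z hz hr hq
  have : CharZero K := charZero_of_injective_algebraMap (algebraMap L K).injective
  obtain ⟨i, hi⟩ := IsAlgClosed.exists_pow_nat_eq (-1 : L) (n := 2) two_pos
  refine or_iff_not_imp_left.2 fun ht => ?_
  have pl : ∀ (j k : Fin 4) (c : L) (a : Fin 4 → L), j ≠ k → a j = c * a k →
      QQ (a 0 ^ 2) (a 1 ^ 2) (a 2 ^ 2) (a 3 ^ 2) ≠ 0 → z j ≠ algebraMap L K c * z k :=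
    fun j k c a h1 h2 h3 h4 => ht (hPLANE K z j k c _ 12 h1 hz hr h4 (DEGx.hom L)
      (by simpa [QQ] using hq) ⟨a, h2, by simpa [QQ] using h3⟩)
  have hI : algebraMap L K i ^ 2 = -1 := by rw [← map_pow, hi, map_neg, map_one]
  have hi' : (-i) ^ 2 = -1 := by rw [neg_sq, hi]
  have h3 : z 3 ≠ 0 := by simpa using pl 3 0 0 ![1, 1, 1, 0] (by decide) (by simp) (by simp [QQ])
  have h0 : z 0 ≠ 0 := by simpa using pl 0 3 0 ![0, 0, 0, 1] (by decide) (by simp) (by simp [QQ])
  have h1 : z 1 ≠ 0 := by simpa using pl 1 3 0 ![0, 0, 0, 1] (by decide) (by simp) (by simp [QQ])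
  have sq : ∀ j : Fin 4, (∀ c : L, c ^ 2 = -1 → z j ≠ algebraMap L K c * z 3) →
      1 + (z j / z 3) ^ 2 ≠ 0 := fun j h e => by
    have e1 : (z j - algebraMap L K i * z 3) * (z j - algebraMap L K (-i) * z 3) = 0 := by
      rw [map_neg]
      field_simp at e
      linear_combination e - z 3 ^ 2 * hI
    rcases mul_eq_zero.1 e1 with e2 | e2
    · exact h i hi (sub_eq_zero.1 e2)
    · exact h _ hi' (sub_eq_zero.1 e2)
  have s0 := sq 0 fun c hc => pl 0 3 c ![c, 0, 0, 1] (by decide) (by simp) (by simp [QQ, hc])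
  have s1 := sq 1 fun c hc => pl 1 3 c ![0, c, 0, 1] (by decide) (by simp) (by simp [QQ, hc])
  have s2 := sq 2 fun c hc => pl 2 3 c ![0, 0, c, 1] (by decide) (by simp) (by simp [QQ, hc])
  have s3 : 1 - z 2 / z 3 ≠ 0 := fun e => pl 2 3 1 ![0, 0, 1, 1] (by decide) (by simp)
    (by simp [QQ]; norm_num) (by
      rw [map_one]
      field_simp at e
      linear_combination -e)
  have s4 : 1 + z 2 / z 3 ≠ 0 := fun e => pl 2 3 (-1) ![0, 0, -1, 1] (by decide) (by simp)
    (by simp [QQ]; norm_num) (by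
      rw [map_neg, map_one]
      field_simp at e
      linear_combination e)
  obtain ⟨f, g, u, v, t, v0, u1, u2⟩ := hCUB K i (z 0 / z 3) (z 1 / z 3) (z 2 / z 3) hi
    (div_ne_zero h0 h3) (div_ne_zero h1 h3) s0 s1 s2 s3 s4 (by
      have e : QQ ((z 0 / z 3) ^ 2) ((z 1 / z 3) ^ 2) ((z 2 / z 3) ^ 2) 1 =
          QQ (z 0 ^ 2) (z 1 ^ 2) (z 2 ^ 2) (z 3 ^ 2) / z 3 ^ 12 := by
        simp only [QQ]
        field_simp
      rw [e, hq, zero_div])
  have I0 : algebraMap L K i ≠ 0 := fun e => by simp [e] at hI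
  have top : IntermediateField.adjoin L (Set.range u ∪ Set.range v) = ⊤ := by
    set F := IntermediateField.adjoin L (Set.range u ∪ Set.range v)
    have hu : ∀ j, u j ∈ F := fun j => IntermediateField.subset_adjoin _ _ (Or.inl ⟨j, rfl⟩)
    have hv : ∀ j, v j ∈ F := fun j => IntermediateField.subset_adjoin _ _ (Or.inr ⟨j, rfl⟩)
    have hF := F.algebraMap_mem i
    have all : ∀ j, z j / z 3 ∈ F := fun j => by
      fin_cases j
      · have e : z 0 / z 3 = u 1 / algebraMap L K i := by rw [u1]; field_simp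
        exact e ▸ div_mem (hu 1) hF
      · have e : z 1 / z 3 = (v 0)⁻¹ := by rw [v0, inv_inv]
        exact e ▸ inv_mem (hv 0)
      · have e : z 2 / z 3 = (algebraMap L K i - u 2) / (algebraMap L K i + u 2) := by
          rw [u2]
          generalize z 2 / z 3 = y at s4
          have a : algebraMap L K i + algebraMap L K i * (1 - y) / (1 + y) =
              2 * algebraMap L K i / (1 + y) := by field_simp; ring
          rw [a]
          field_simp
          ring
        exact e ▸ div_mem (sub_mem hF (hu 2)) (add_mem hF (hu 2))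
      · exact (div_self h3).symm ▸ one_mem F
    rw [eq_top_iff, ← hr]
    refine IntermediateField.adjoin_le_iff.2 ?_
    rintro _ ⟨j, k, rfl⟩
    exact div_div_div_cancel_right₀ h3 (z j) (z k) ▸ div_mem (all j) (all k)
  refine hGT K i f g u v hi (hTB K i f g u v t top ?_) t top
  exact Cardinal.two_le_iff_one_lt.2 (not_le.1 ht)

end Pool.Agent.P.MP_50039c_nt.LV
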