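import Pool.Agent.P.MP_50039c_nt.LV.IfaceB

/-! Step DEGL. -/

set_option autoImplicit false
set_option linter.unusedSectionVars false

namespace Pool.Agent.P.MP_50039c_nt.LV

open MvPolynomial Module Pool.Agent.P.MP_6f117a_ag PJ
open scoped IntermediateField

universe u

theorem p_DEGL (L : Type u) [Field L] [IsAlgClosed L] [CharZero L] :
    S_DEGL L := by
  intro K _ _ _ n y i j hi ht
  obtain ⟨Z, hZ, e⟩ := degree_eq (L := L) hi
  obtain ⟨Y, hY, eY⟩ := exists_poles ht
  have hj : y j ≠ 0 := left_ne_zero_of_mul (div_eq_mul_inv (y j) (y i) ▸ trans_ne ht)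
  have sub : Y ⊆ Z := fun P hP => by
    have h1 := (hY P).1 hP
    by_contra hc
    simp [not_not.1 (mt (hZ P i hi) hc), not_not.1 (mt (hZ P j hj) hc)] at h1
  rw [e, ← eY]
  refine (Finset.sum_le_sum fun P _ => ?_).trans
    (Finset.sum_le_sum_of_subset_of_nonneg sub fun Q _ _ => WithZero.le_log_of_exp_le ?_)
  · have h0 : P.v (y j / y i) ≠ 0 := by simpa using trans_ne ht
    refine WithZero.le_log_of_exp_le ?_
    rw [WithZero.exp_log h0]
    exact Finset.le_sup (f := fun j => P.v (y j / y i)) (Finset.mem_univ j)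
  · simpa [hi] using Finset.le_sup (f := fun j => Q.v (y j / y i)) (Finset.mem_univ i)

end Pool.Agent.P.MP_50039c_nt.LV
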