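import Pool.Agent.P.MP_50039c_nt.LV.IfaceA

/-! Step EVEN. -/

set_option autoImplicit false
set_option linter.unusedSectionVars false

namespace Pool.Agent.P.MP_50039c_nt.LV

open Module

universe u

namespace EVENx

theorem key {K Γ : Type*} [Field K] [LinearOrderedCommGroupWithZero Γ] (v : Valuation K Γ)
    {T A : K} (h : v T ≠ v A) : T + A ≠ 0 ∧ v (4 * T * A / (T + A) ^ 2) < 1 := by
  have h1 := v.map_add_of_distinct_val h
  have h0 : 0 < max (v T) (v A) := by
    rcases lt_or_gt_of_ne h with h2 | h2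
    · exact lt_max_of_lt_right (lt_of_le_of_lt zero_le h2)
    · exact lt_max_of_lt_left (lt_of_le_of_lt zero_le h2)
  have h4 : v 4 ≤ 1 := by
    have h2 : v (1 + 1) ≤ 1 := v.map_add_le v.map_one.le v.map_one.le
    rw [show (4 : K) = (1 + 1) + (1 + 1) by norm_num]
    exact v.map_add_le h2 h2
  refine ⟨fun e => ?_, ?_⟩
  · rw [e, map_zero] at h1
    exact h0.ne h1
  · rw [map_div₀, map_pow, h1, div_lt_one₀ (pow_pos h0 2), map_mul, map_mul, mul_assoc]
    refine lt_of_le_of_lt (mul_le_of_le_one_left' h4) ?_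
    rw [pow_two]
    rcases lt_or_gt_of_ne h with h2 | h2
    · rw [max_eq_right h2.le] at h0 ⊢
      exact mul_lt_mul_of_pos_right h2 h0
    · rw [max_eq_left h2.le] at h0 ⊢
      exact mul_lt_mul_of_pos_left h2 h0

theorem sq_ne {K Γ : Type*} [Field K] [LinearOrderedCommGroupWithZero Γ] (v : Valuation K Γ)
    {m a : K} (h : v m ≠ v a) : v (m ^ 2) ≠ v (a ^ 2) := by
  rw [map_pow, map_pow]
  exact fun e => h (pow_left_injective (by norm_num) e)

end EVENx

theorem p_EVEN (L : Type u) [Field L] [IsAlgClosed L] [CharZero L] :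
    S_EVEN L := by
  intro K _ _ v a b c m h
  by_contra hc
  push Not at hc
  obtain ⟨a0, a1⟩ := EVENx.key v (EVENx.sq_ne v hc.1)
  obtain ⟨b0, b1⟩ := EVENx.key v (EVENx.sq_ne v hc.2.1)
  obtain ⟨c0, c1⟩ := EVENx.key v (EVENx.sq_ne v hc.2.2)
  have h1 := v.map_one_add_of_lt (v.map_sub_lt (v.map_sub_lt c1 a1) b1)
  have h2 : 1 + (4 * m ^ 2 * c ^ 2 / (m ^ 2 + c ^ 2) ^ 2 - 4 * m ^ 2 * a ^ 2 / (m ^ 2 + a ^ 2) ^ 2
      - 4 * m ^ 2 * b ^ 2 / (m ^ 2 + b ^ 2) ^ 2) = 0 := by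
    unfold QQ at h
    field_simp
    linear_combination h
  rw [h2, map_zero] at h1
  exact zero_ne_one h1

end Pool.Agent.P.MP_50039c_nt.LV
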