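import Pool.Agent.P.MP_50039c_nt.LV.IfaceB

/-! Step FFW. -/

set_option autoImplicit false
set_option linter.unusedSectionVars false

namespace Pool.Agent.P.MP_50039c_nt.LV

open MvPolynomial Module Pool.Agent.P.MP_6f117a_ag PJ
open scoped IntermediateField

universe u

theorem p_FFW (L : Type u) [Field L] [IsAlgClosed L] [CharZero L] :
    S_FFW L := by
  classical
  rintro K _ _ (⟨s, hs, h⟩ | ⟨x, y, a, b, hx, he, -, -, h⟩)
  · exact FF.of_fg (rational_ff hs h).1 (rational_ff hs h).2.le
  · refine FF.of_fg ⟨{x, y}, by simpa using h⟩ ?_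
    have hxm : x ∈ L⟮x⟯ := IntermediateField.mem_adjoin_simple_self L x
    have hT : x * (x ^ 2 + algebraMap L K a * x + algebraMap L K b) ∈ L⟮x⟯ :=
      mul_mem hxm (add_mem (add_mem (pow_mem hxm 2) (mul_mem (algebraMap_mem _ a) hxm))
        (algebraMap_mem _ b))
    have hy : IsIntegral L⟮x⟯ y := by
      refine IsIntegral.of_pow (n := 2) (by norm_num) ?_
      rw [he]
      exact isIntegral_algebraMap (x := (⟨_, hT⟩ : L⟮x⟯))
    have ht : L⟮x⟯⟮y⟯ = ⊤ := by
      apply IntermediateField.restrictScalars_injective L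
      rw [IntermediateField.adjoin_simple_adjoin_simple, h]
      rfl
    have hf := IntermediateField.adjoin.finiteDimensional hy
    rw [ht] at hf
    have hK : FiniteDimensional L⟮x⟯ K :=
      (IntermediateField.topEquiv (F := L⟮x⟯) (E := K)).toLinearEquiv.finiteDimensional
    have : IsTranscendenceBasis L fun _ : PUnit.{u + 1} => x :=
      isTranscendenceBasis_iff_algebraicIndependent_isAlgebraic.2
        ⟨algebraicIndependent_unique_type_iff.2 hx, by
          rw [Set.range_const, ← IntermediateField.isAlgebraic_adjoin_iff_top]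
          infer_instance⟩
    simpa using this.cardinalMk_eq_trdeg.symm.le

end Pool.Agent.P.MP_50039c_nt.LV
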