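import Pool.Agent.P.MP_50039c_nt.LV.IfaceB

/-! Step FFX. -/

set_option autoImplicit false
set_option linter.unusedSectionVars false

namespace Pool.Agent.P.MP_50039c_nt.LV

open MvPolynomial Module Pool.Agent.P.MP_6f117a_ag PJ
open scoped IntermediateField

universe u

theorem p_FFX (L : Type u) [Field L] [IsAlgClosed L] [CharZero L] :
    S_FFX L := by
  intro K K' _ _ _ _ _ _ _ _ t ht
  have h1 : FiniteDimensional L⟮t⟯ K := FF.fin t ht
  have h2 : FiniteDimensional L⟮t⟯ K' := Module.Finite.trans K K'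
  refine ⟨FF.of_fg ?_ ?_, ?_⟩
  · rw [IntermediateField.fg_top_iff]
    have h3 : Algebra.EssFiniteType L L⟮t⟯ :=
      IntermediateField.essFiniteType_iff.2
        (IntermediateField.fg_adjoin_of_finite (Set.finite_singleton t))
    exact Algebra.EssFiniteType.comp L L⟮t⟯ K'
  · have h3 := trdeg_add_eq L K (A := K')
    have h4 : Algebra.trdeg K K' = 0 := trdeg_eq_zero
    have h5 := (FF.isTB ht).lift_cardinalMk_eq_trdeg
    rw [← h3, h4, add_zero]
    have h6 : Algebra.trdeg L K = 1 := by simpa using h5.symm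
    exact h6.le
  · let f : K →ₐ[L] K' := IsScalarTower.toAlgHom L K K'
    have he : L⟮t⟯.map f = L⟮algebraMap K K' t⟯ := by
      rw [IntermediateField.adjoin_map, Set.image_singleton]; rfl
    have h3 : finrank L⟮t⟯ K' = finrank (L⟮t⟯.map f) K' :=
      Algebra.finrank_eq_of_equiv_equiv (L⟮t⟯.equivMap f).toRingEquiv (RingEquiv.refl K')
        (by ext x; rfl)
    rw [← he, ← h3, ← Module.finrank_mul_finrank L⟮t⟯ K K']
    exact Nat.le_mul_of_pos_left _ Module.finrank_pos

end Pool.Agent.P.MP_50039c_nt.LV
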