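import Pool.Agent.P.MP_50039c_nt.LV.IfaceB
import Pool.Agent.P.MP_50039c_nt.LV.IfaceA

/-! Step GT. -/

set_option autoImplicit false
set_option linter.unusedSectionVars false

namespace Pool.Agent.P.MP_50039c_nt.LV

open MvPolynomial Module Pool.Agent.P.MP_6f117a_ag PJ
open scoped IntermediateField

universe u

namespace GTx

variable {L K : Type u} [Field L] [Field K] [Algebra L K]

theorem ne {f : K} (hf : Transcendental L f) : f ≠ 0 ∧ f * (f ^ 4 - 1) ≠ 0 := by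
  have h0 : f ≠ 0 := fun e => hf (e ▸ isAlgebraic_zero)
  refine ⟨h0, mul_ne_zero h0 fun e => hf (IsAlgebraic.of_pow (n := 4) (by norm_num) ?_)⟩
  rw [sub_eq_zero.1 e]
  exact isAlgebraic_one

theorem w_ne {P : Loc L K} {A : Fin 3 → K} (H : Half P A) : H.w ≠ 0 := by
  unfold Half.w
  cases H.k with
  | none => exact one_ne_zero
  | some _ => exact H.s_ne

theorem inZ {P : Loc L K} {A : Fin 3 → K} (H : Half P A) {Z : Subalgebra L K} (hZ : P.Sq Z)
    (hs : H.s ∈ Z) : P.In Z (A 0) := by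
  by_cases hk : H.k = some 0
  · rcases H.spec 0 hk with e | e <;> rw [e]
    · exact Loc.in_m H.s_mem H.s_ne hs
    · exact (Loc.in_m H.s_mem H.s_ne hs).inv
  · exact hZ.in_un (H.un 0 hk) (H.mem Z hZ hs 0 hk)

end GTx

theorem p_GT (L : Type u) [Field L] [IsAlgClosed L] [CharZero L]
    (hMUL : S_MUL L) (hONEA : S_ONEA L) (hONEB : S_ONEB L) (hONEI : S_ONEI L) (hTWO : S_TWO L) :
    S_GT L := by
  intro K _ _ i f g u v hi ht hT hadj
  have tf : Transcendental L f := ht.1.transcendental 0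
  have tg : Transcendental L g := ht.1.transcendental 1
  obtain ⟨f0, Rf⟩ := GTx.ne tf
  obtain ⟨g0, Rg⟩ := GTx.ne tg
  obtain ⟨D, hD, -⟩ := exists_basis_der _ ht
  have one : ∀ (P : Loc L K) (x : K), Transcendental L x → P.PM x → One P i x := by
    intro P x tx hx
    by_cases h : x ∈ P.O
    · obtain ⟨c, hc⟩ := P.res x h
      by_cases e : c ^ 4 = 1
      · exact hONEB K P i c x hi tx hc e
      · exact hONEA K P i c x hi tx hc e
    · exact hONEI K P i x hi tx (Loc.inv_m h (hx.resolve_left h))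
  have h0 : (f * (f ^ 4 - 1) * (g * (g ^ 4 - 1)))⁻¹ ≠ 0 := inv_ne_zero (mul_ne_zero Rf Rg)
  refine hMUL K (Fin 2 ⊕ (Fin 3 ⊕ Fin 3)) (Sum.elim ![f, g] (Sum.elim u v)) 2 (by simp) ?_ ?_ ?_
    D 2 _ (fun j => ![f, g] j * (f * (f ^ 4 - 1) * (g * (g ^ 4 - 1)))⁻¹) two_pos h0 ?_ ?_
  · rintro (j | j | j)
    · fin_cases j
      · exact f0
      · exact g0
    · exact (hT j).1
    · exact (hT j).2.1
  · refine top_le_iff.1 (hadj ▸ IntermediateField.adjoin.mono L _ _ ?_)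
    rintro x (⟨j, rfl⟩ | ⟨j, rfl⟩)
    · exact ⟨.inr (.inl j), rfl⟩
    · exact ⟨.inr (.inr j), rfl⟩
  · have := ht.lift_cardinalMk_eq_trdeg
    simpa using this.symm
  · simpa only [mul_div_cancel_right₀ _ h0] using ht.1
  intro P hP
  obtain ⟨H, lam, a1, a2, a3⟩ := one P f tf (hP (.inl 0))
  obtain ⟨H', mu, b1, b2, b3⟩ := one P g tg (hP (.inl 1))
  obtain ⟨p, hp, q, hq, κ, c1, c2, c3⟩ := hTWO K P _ _ u v H H' fun j =>
    ⟨hT j, hP (.inr (.inl j)), hP (.inr (.inr j))⟩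
  have w1 := GTx.w_ne H
  have w2 := GTx.w_ne H'
  have e1 : lam * mu * κ * jac (D 0) (D 1) p q = 1 := by
    have e : jac (D 0) (D 1) f g = 1 := by
      have d1 := hD 0 0
      have d2 := hD 1 1
      have d3 := hD 0 1
      simp at d1 d2 d3
      simp [jac, d1, d2, d3]
    rw [mul_assoc, ← c2, ← e, jac, jac, a1, a1, b1, b1]
    ring
  have e2 : (f * (f ^ 4 - 1) * (g * (g ^ 4 - 1)))⁻¹ = lam ^ 2 * H.w / (f * (f ^ 4 - 1)) *
      (mu ^ 2 * H'.w / (g * (g ^ 4 - 1))) * (κ ^ 2 / (H.w * H'.w)) * jac (D 0) (D 1) p q ^ 2 := by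
    generalize f * (f ^ 4 - 1) = R at Rf ⊢
    generalize g * (g ^ 4 - 1) = S at Rg ⊢
    field_simp
    linear_combination (-1 - lam * mu * κ * jac (D 0) (D 1) p q) * e1
  refine ⟨![p, q], fun j => ?_, fun Z hZ hpq => ?_, fun x hx => ?_⟩
  · fin_cases j
    · exact hp
    · exact hq
  · obtain ⟨s1, s2, s3⟩ := c1 Z hZ (hpq 0) (hpq 1)
    have k : ∀ j, P.In Z (Sum.elim ![f, g] (Sum.elim u v) j) := by
      rintro (j | j | j)
      · fin_cases j
        · exact GTx.inZ H hZ s1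
        · exact GTx.inZ H' hZ s2
      · exact (s3 j).1
      · exact (s3 j).2
    rintro x ⟨hx, j, rfl | rfl⟩
    · exact (k j).1 hx
    · exact (k j).2 hx
  · have e3 : (Matrix.of fun a b => D a (![p, q] b)).det = jac (D 0) (D 1) p q := by
      simp [Matrix.det_fin_two, jac]
    rw [e3]
    rcases hx with rfl | ⟨j, rfl⟩
    · exact ⟨_, mul_mem (mul_mem a2 b2) c3, e2⟩
    · fin_cases j
      · exact ⟨_, mul_mem (mul_mem a3 b2) c3, (congrArg (f * ·) e2).trans (by ring)⟩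
      · exact ⟨_, mul_mem (mul_mem a2 b3) c3, (congrArg (g * ·) e2).trans (by ring)⟩

end Pool.Agent.P.MP_50039c_nt.LV
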