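import Pool.Agent.P.MP_50039c_nt.LV.IfaceB
import Pool.Agent.P.MP_6f117a_ag.PJ.TTD

/-! Step HYP. -/

set_option autoImplicit false
set_option linter.unusedSectionVars false

namespace Pool.Agent.P.MP_50039c_nt.LV

open MvPolynomial Module Pool.Agent.P.MP_6f117a_ag PJ
open scoped IntermediateField

universe u

theorem p_HYP (L : Type u) [Field L] [IsAlgClosed L] [CharZero L] :
    S_HYP L := by
  classical
  intro K _ _ n e y F hy hr hF hF0 h0
  obtain ⟨i, hi⟩ := Function.ne_iff.1 hy
  replace hi : y i ≠ 0 := hi
  by_contra hc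
  have := TTD.alg hr hi
  obtain ⟨J, hJ⟩ := TTD.indep (w := fun j => y j / y i) hc
  have hinj : Function.Injective J := fun a b h => hJ.injective (by simp only [h])
  have hne : ∀ j, J j ≠ i := fun j h => hJ.transcendental j (by
    simp only [h, div_self hi]
    exact isAlgebraic_one)
  have hbij : Function.Bijective (Fin.cons i J : Fin (n + 2) → Fin (n + 2)) :=
    Finite.injective_iff_bijective.1 (Fin.cons_injective_iff.2
      ⟨fun ⟨j, h⟩ => hne j h, hinj⟩)
  have hex : ∀ k, k ≠ i → ∃ j, J j = k := fun k hk => by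
    obtain ⟨a, ha⟩ := hbij.2 k
    revert ha
    refine Fin.cases (fun h => absurd h.symm hk) (fun j h => ⟨j, h⟩) a
  let s : Fin (n + 2) → MvPolynomial (Fin (n + 1)) L := fun k =>
    if h : k = i then 1 else X (hex k h).choose
  have hs : ∀ (R : Type u) [CommRing R] [Algebra L R] (a : Fin (n + 2) → R), a i = 1 →
      aeval (fun j => a (J j)) (aeval s F) = aeval a F := fun R _ _ a ha => by
    rw [← AlgHom.comp_apply, comp_aeval]
    congr 2
    funext k
    by_cases h : k = i
    · simp only [s, dif_pos h, map_one]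
      rw [h, ha]
    · simp only [s, dif_neg h, aeval_X]
      rw [(hex k h).choose_spec]
  have h1 : aeval s F = 0 := by
    refine hJ.eq_zero_of_aeval_eq_zero _ ?_
    rw [hs K (fun j => y j / y i) (div_self hi), TTD.scale hF, h0, zero_div]
  have h3 : X i * F = 0 := MvPolynomial.funext fun a => by
    rw [map_mul, eval_X, map_zero]
    rcases eq_or_ne (a i) 0 with ha | ha
    · rw [ha, zero_mul]
    · have h2 := hs L (fun j => a j / a i) (div_self ha)
      rw [h1, map_zero, TTD.scale hF, aeval_eq_eval] at h2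
      rw [(div_eq_zero_iff.1 h2.symm).resolve_right (pow_ne_zero _ ha), mul_zero]
  exact hF0 ((mul_eq_zero.1 h3).resolve_left (X_ne_zero i))

end Pool.Agent.P.MP_50039c_nt.LV
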