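import Pool.Agent.P.MP_50039c_nt.LV.IfaceA

/-! Step LIN. -/

set_option autoImplicit false
set_option linter.unusedSectionVars false

namespace Pool.Agent.P.MP_50039c_nt.LV

open Module

universe u

namespace LINx

theorem top_of {L : Type u} [Field L] {M : ℕ} (W : Submodule L (Fin M → L))
    (h : ∀ v : Fin M → L, (∀ w ∈ W, w ⬝ᵥ v = 0) → v = 0) : W = ⊤ := by
  by_contra hW
  obtain ⟨f, hf0, hf⟩ := Submodule.exists_le_ker_of_lt_top W (lt_top_iff_ne_top.2 hW)
  have key : ∀ w : Fin M → L, f w = w ⬝ᵥ (fun j => f (Pi.single j 1)) := by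
    intro w
    conv_lhs => rw [pi_eq_sum_univ' w]
    simp [map_sum, dotProduct]
  have hv := h (fun j => f (Pi.single j 1)) (fun w hw => by
    rw [← key]; exact hf hw)
  apply hf0
  ext j
  simpa using congrFun hv j

end LINx

theorem p_LIN (L : Type u) [Field L] [IsAlgClosed L] [CharZero L]
    (hMIN : S_MIN L) :
    S_LIN L := by
  intro Γ c e M g l hM h
  have htop : Submodule.span L (Set.range g) ⊔ Submodule.span L (Set.range l) = ⊤ := by
    apply LINx.top_of
    intro v hv
    apply h v
    · intro γ
      exact hv _ (Submodule.mem_sup_left (Submodule.subset_span ⟨γ, rfl⟩))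
    · intro k
      exact hv _ (Submodule.mem_sup_right (Submodule.subset_span ⟨k, rfl⟩))
  have h1 : finrank L (Submodule.span L (Set.range l)) ≤ e := by
    have h0 := finrank_range_le_card (R := L) l
    rw [Fintype.card_fin] at h0
    exact h0
  have h2 := Submodule.finrank_add_le_finrank_add_finrank (Submodule.span L (Set.range g))
    (Submodule.span L (Set.range l))
  rw [htop, finrank_top, Module.finrank_fin_fun] at h2
  have h3 : c ≤ finrank L (Submodule.span L (Set.range g)) := by omega
  obtain ⟨κ, a, ha, hsp, hli⟩ := exists_linearIndependent' L g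
  have : Finite κ := hli.finite
  have : Fintype κ := Fintype.ofFinite κ
  have h4 : finrank L (Submodule.span L (Set.range (g ∘ a))) = Fintype.card κ :=
    finrank_span_eq_card hli
  rw [hsp] at h4
  have h5 : Fintype.card (Fin c) ≤ Fintype.card κ := by simpa [h4] using h3
  obtain ⟨b⟩ := Function.Embedding.nonempty_of_card_le h5
  obtain ⟨J, hJ⟩ := hMIN (Fin M) c (fun i => g (a (b i))) (hli.comp b b.injective)
  exact ⟨fun i => a (b i), J, hJ⟩

end Pool.Agent.P.MP_50039c_nt.LV
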