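import Pool.Agent.P.MP_50039c_nt.LV.IfaceB
import Pool.Agent.P.MP_50039c_nt.LV.IfaceA

/-! Step LOC. -/

set_option autoImplicit false
set_option linter.unusedSectionVars false

namespace Pool.Agent.P.MP_50039c_nt.LV

open MvPolynomial Module Pool.Agent.P.MP_6f117a_ag PJ
open scoped IntermediateField

universe u

theorem p_LOC (L : Type u) [Field L] [IsAlgClosed L] [CharZero L]
    (hRING : S_RING L) (hLIN : S_LIN L) :
    S_LOC L := by
  intro K _ _ d c M z hc hz hrat htr D r h₀ h hr h0 hind hch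
  have key : ∀ a, OnY L z a → ∃ (S : Fin M) (P : Loc L K) (lam : K → Fin M → L), a S ≠ 0 ∧
      (∀ x, x ∈ P.O ↔ x ∈ locRing L z a) ∧ (∀ v : Fin M → L,
      (∀ G, Form L z G → (fun j => eval a (pderiv j G)) ⬝ᵥ v = 0) → ∃ Z : Subalgebra L K,
        P.Sq Z ∧ (∀ p ∈ P.O, lam p ⬝ᵥ v = 0 → p ∈ Z) ∧
          ∀ S T, a S ≠ 0 → v S = 0 → z T / z S ∈ Z → v T = 0) ∧
      Chart P D r h₀ h {x | ∃ T, x = z T / z S} := by
    intro a ha
    obtain ⟨S, hS⟩ := Function.ne_iff.1 ha.1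
    have hS' : a S ≠ 0 := hS
    have hzS : z S ≠ 0 := fun e => hS' (by
      simpa using ha.2 (X S) ⟨⟨1, isHomogeneous_X L S⟩, by simpa using e⟩)
    obtain ⟨P, lam, hO, hv⟩ := hRING K M z a ha
    exact ⟨S, P, lam, hS', hO, hv, hch P S hzS fun T => (hO _).2
      ⟨1, X T, X S, isHomogeneous_X L T, isHomogeneous_X L S, by simpa using hS', by simp⟩⟩
  have can : ∀ x, (x = h₀ ∨ ∃ i, x = h i) → x ∈ canSec L z D r := by
    intro x hx a ha
    obtain ⟨S, P, lam, -, hO, -, p, hp, -, hb⟩ := key a ha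
    obtain ⟨b, hb1, hb2⟩ := hb x hx
    exact AddSubgroup.subset_closure ⟨b, fun _ => p, (hO _).1 hb1, fun _ j => (hO _).1 (hp j),
      by simpa using hb2⟩
  refine ⟨d, M, z, ⟨hz, hrat, htr, fun a ha => ?_⟩, D, r, h₀, h, hr, h0, can _ (Or.inl rfl),
    fun i => can _ (Or.inr ⟨i, rfl⟩), hind⟩
  obtain ⟨S, P, lam, hS, -, hv, p, hp, hZ, -⟩ := key a ha
  obtain ⟨G, J, hdet⟩ := hLIN {G : MvPolynomial (Fin M) L // Form L z G} c (d + 1) M
    (fun G j => eval a (pderiv j G.1)) (Fin.cons (Pi.single S 1) fun j => lam (p j))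
    (by omega) fun v h1 h2 => by
      obtain ⟨Z, hSq, hlam, hT⟩ := hv v fun G hG => h1 ⟨G, hG⟩
      have hvS : v S = 0 := by simpa using h2 0
      funext T
      exact hT S T hS hvS (hZ Z hSq (fun j => hlam _ (hp j) (by simpa using h2 j.succ)) _ ⟨T, rfl⟩)
  exact ⟨c, fun i => (G i).1, J, hc, fun i => (G i).2, hdet⟩

end Pool.Agent.P.MP_50039c_nt.LV
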