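import Pool.Agent.P.MP_50039c_nt.LV.IfaceA

/-! Step MIN. -/

set_option autoImplicit false
set_option linter.unusedSectionVars false

namespace Pool.Agent.P.MP_50039c_nt.LV

open Module

universe u

theorem p_MIN (L : Type u) [Field L] [IsAlgClosed L] [CharZero L] :
    S_MIN L := by
  classical
  intro ι _ c A hA
  have h1 : (Matrix.of A).rank = c := by
    simpa using LinearIndependent.rank_matrix (M := Matrix.of A) hA
  obtain ⟨κ, a, ha, hsp, hli⟩ := exists_linearIndependent' L (Matrix.of A).col
  have : Fintype κ := Fintype.ofInjective a ha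
  have h2 : Fintype.card κ = c := by
    rw [← finrank_span_eq_card hli, hsp, ← Matrix.rank_eq_finrank_span_cols, h1]
  let e : Fin c ≃ κ := (Fintype.equivFinOfCardEq h2).symm
  refine ⟨fun j => a (e j), ?_⟩
  have h3 : LinearIndependent L (Matrix.of fun i j => A i (a (e j))).col :=
    hli.comp e e.injective
  exact ((Matrix.isUnit_iff_isUnit_det _).1 (Matrix.linearIndependent_cols_iff_isUnit.1 h3)).ne_zero

end Pool.Agent.P.MP_50039c_nt.LV
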