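import Pool.Agent.P.MP_50039c_nt.LV.IfaceB

/-! Step MUL. -/

set_option autoImplicit false
set_option linter.unusedSectionVars false

namespace Pool.Agent.P.MP_50039c_nt.LV

open MvPolynomial Module Pool.Agent.P.MP_6f117a_ag PJ
open scoped IntermediateField

universe u

namespace MULx

theorem ratio {K ι : Type*} [Field K] [DecidableEq ι] (w : ι → K) (hw : ∀ i, w i ≠ 0)
    (S T : Finset ι) :
    (∏ i ∈ T, w i) / (∏ i ∈ S, w i) = (∏ i ∈ T \ S, w i) * ∏ i ∈ S \ T, (w i)⁻¹ := by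
  have h1 : ∏ i ∈ T, w i = (∏ i ∈ T \ S, w i) * ∏ i ∈ T ∩ S, w i := by
    rw [← Finset.prod_union (Finset.disjoint_sdiff_inter T S), Finset.sdiff_union_inter]
  have h2 : ∏ i ∈ S, w i = (∏ i ∈ S \ T, w i) * ∏ i ∈ T ∩ S, w i := by
    rw [Finset.inter_comm, ← Finset.prod_union (Finset.disjoint_sdiff_inter S T),
      Finset.sdiff_union_inter]
  have h3 : ∏ i ∈ T ∩ S, w i ≠ 0 := Finset.prod_ne_zero_iff.2 fun i _ => hw i
  rw [h1, h2, mul_div_mul_right _ _ h3, Finset.prod_inv_distrib, div_eq_mul_inv]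

end MULx

theorem p_MUL (L : Type u) [Field L] [IsAlgClosed L] [CharZero L]
    (hLOC : S_LOC L) :
    S_MUL L := by
  classical
  intro K _ _ ι _ w d hd hw hK htr D r h₀ h hr hh hind hch
  have hc : Fintype.card (Finset ι) = 2 ^ Fintype.card ι := Fintype.card_finset
  let e : Finset ι ≃ Fin (2 ^ Fintype.card ι) := Fintype.equivFinOfCardEq hc
  let z : Fin (2 ^ Fintype.card ι) → K := fun m => ∏ i ∈ e.symm m, w i
  have hz : ∀ S, z (e S) = ∏ i ∈ S, w i := fun S => by simp [z]
  have hz0 : ∀ m, z m ≠ 0 := fun m => Finset.prod_ne_zero_iff.2 fun i _ => hw i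
  have hlt : Fintype.card ι < 2 ^ Fintype.card ι := Nat.lt_two_pow_self
  refine hLOC K d (2 ^ Fintype.card ι - d - 1) _ z (by omega)
    (fun h0 => hz0 (e ∅) (congrFun h0 _)) ?_ htr D r h₀ h hr hh hind ?_
  · refine top_le_iff.1 (hK ▸ IntermediateField.adjoin.mono _ _ _ ?_)
    rintro _ ⟨i, rfl⟩
    exact ⟨e {i}, e ∅, by simp [hz]⟩
  · intro P S _ hS
    obtain ⟨S, rfl⟩ := e.surjective S
    have h1 : ∀ i ∈ S, (w i)⁻¹ ∈ P.O := fun i hi => by
      have := hS (e (S.erase i))
      rw [hz, hz, MULx.ratio w hw] at this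
      have e1 : S.erase i \ S = ∅ := Finset.sdiff_eq_empty_iff_subset.2 (Finset.erase_subset _ _)
      have e2 : S \ S.erase i = {i} := Finset.sdiff_erase_self hi
      simpa [e1, e2] using this
    have h2 : ∀ i, i ∉ S → w i ∈ P.O := fun i hi => by
      have := hS (e (insert i S))
      rw [hz, hz, MULx.ratio w hw] at this
      have e1 : S \ insert i S = ∅ :=
        Finset.sdiff_eq_empty_iff_subset.2 (Finset.subset_insert _ _)
      have e2 : insert i S \ S = {i} := by
        ext j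
        simp only [Finset.mem_sdiff, Finset.mem_insert, Finset.mem_singleton]
        constructor
        · rintro ⟨hj | hj, hj'⟩
          · exact hj
          · exact absurd hj hj'
        · rintro rfl
          exact ⟨Or.inl rfl, hi⟩
      simpa [e1, e2] using this
    obtain ⟨p, hp, hZ, hx⟩ := hch P fun i => by
      by_cases hi : i ∈ S
      · exact Or.inr (h1 i hi)
      · exact Or.inl (h2 i hi)
    refine ⟨p, hp, fun Z hq hpZ x => ?_, hx⟩
    rintro ⟨T, rfl⟩
    obtain ⟨T, rfl⟩ := e.surjective T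
    rw [hz, hz, MULx.ratio w hw]
    refine mul_mem (prod_mem fun i hi => ?_) (prod_mem fun i hi => ?_)
    · exact hZ Z hq hpZ _ ⟨h2 i (Finset.mem_sdiff.1 hi).2, i, Or.inl rfl⟩
    · exact hZ Z hq hpZ _ ⟨h1 i (Finset.mem_sdiff.1 hi).1, i, Or.inr rfl⟩

end Pool.Agent.P.MP_50039c_nt.LV
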