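import Pool.Agent.P.MP_50039c_nt.LV.IfaceB

/-! Step NORM. -/

set_option autoImplicit false
set_option linter.unusedSectionVars false

namespace Pool.Agent.P.MP_50039c_nt.LV

open MvPolynomial Module Pool.Agent.P.MP_6f117a_ag PJ
open scoped IntermediateField

universe u

namespace NORMx

variable {L K : Type u} [Field L] [Field K] [Algebra L K]

theorem top {s w : K} (h : L⟮s, w⟯ = ⊤) (F : IntermediateField L K) (hs : s ∈ F) (hw : w ∈ F) :
    F = ⊤ := by
  refine top_le_iff.1 (h ▸ IntermediateField.adjoin_le_iff.2 ?_)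
  rintro z (rfl | rfl)
  exacts [hs, hw]

theorem trans {s t : K} (h : Transcendental L s) (hs : s ∈ L⟮t⟯) : Transcendental L t := by
  intro ht
  have := IntermediateField.isAlgebraic_adjoin_simple ht.isIntegral
  exact h (IntermediateField.isAlgebraic_iff.1
    (Algebra.IsAlgebraic.isAlgebraic (⟨s, hs⟩ : L⟮t⟯)))

theorem ne {s : K} (h : Transcendental L s) (c : L) : s - algebraMap L K c ≠ 0 := fun e =>
  h (sub_eq_zero.1 e ▸ isAlgebraic_algebraMap c)

theorem ratl {s w : K} (h : Transcendental L s) (ht : L⟮s, w⟯ = ⊤) (c d : L)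
    (e : w ^ 2 = (s - algebraMap L K c) ^ 2 * (s - algebraMap L K d)) : Ratl L K := by
  have h0 := ne h c
  set t := w / (s - algebraMap L K c) with hT
  have m : t ∈ L⟮t⟯ := IntermediateField.mem_adjoin_simple_self L t
  have e1 : s = t ^ 2 + algebraMap L K d := by
    rw [hT, div_pow, e, mul_div_cancel_left₀ _ (pow_ne_zero 2 h0), sub_add_cancel]
  have hs : s ∈ L⟮t⟯ := e1 ▸ add_mem (pow_mem m 2) (IntermediateField.algebraMap_mem _ d)
  have hw : w ∈ L⟮t⟯ := by
    have := mul_mem m (sub_mem hs (IntermediateField.algebraMap_mem _ c))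
    rwa [hT, div_mul_cancel₀ _ h0] at this
  exact ⟨t, trans h hs, top ht _ hs hw⟩

end NORMx

open NORMx in
theorem p_NORM (L : Type u) [Field L] [IsAlgClosed L] [CharZero L] :
    S_NORM L := by
  intro K _ _ s w A B hs e ht
  obtain ⟨r, hr⟩ := IsAlgClosed.exists_root
    (Polynomial.X ^ 3 + Polynomial.C A * Polynomial.X + Polynomial.C B : Polynomial L) (by
      have : (Polynomial.X ^ 3 + Polynomial.C A * Polynomial.X + Polynomial.C B :
        Polynomial L).degree = 3 := by compute_degree!
      rw [this]; decide)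
  have hB : B = -r ^ 3 - A * r := by
    simp only [Polynomial.IsRoot, Polynomial.eval_add, Polynomial.eval_pow, Polynomial.eval_X,
      Polynomial.eval_mul, Polynomial.eval_C] at hr
    linear_combination hr
  by_cases hb : 3 * r ^ 2 + A = 0
  · refine Or.inl (ratl hs ht r (-2 * r) ?_)
    have hA : A = -3 * r ^ 2 := by linear_combination hb
    rw [e, hB, hA]
    simp only [map_mul, map_sub, map_neg, map_pow, map_ofNat]
    ring
  by_cases ha : (3 * r) ^ 2 = 4 * (3 * r ^ 2 + A)
  · obtain ⟨c, rfl⟩ : ∃ c, r = -2 * c := ⟨-r / 2, by ring⟩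
    refine Or.inl (ratl hs ht c (-2 * c) ?_)
    have hA : A = -3 * c ^ 2 := by linear_combination (-1 / 4 : L) * ha
    rw [e, hB, hA]
    simp only [map_mul, map_sub, map_neg, map_pow, map_ofNat]
    ring
  have m : s ∈ L⟮s - algebraMap L K r⟯ := by
    simpa using add_mem (IntermediateField.mem_adjoin_simple_self L (s - algebraMap L K r))
      (IntermediateField.algebraMap_mem _ r)
  refine Or.inr ⟨s - algebraMap L K r, w, 3 * r, 3 * r ^ 2 + A, trans hs m, ?_, hb, ha,
    top ht _ ?_ (IntermediateField.subset_adjoin _ _ (by simp))⟩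
  · rw [e, hB]
    simp only [map_mul, map_sub, map_add, map_neg, map_pow, map_ofNat]
    ring
  · exact IntermediateField.adjoin.mono _ _ _ (by simp) m

end Pool.Agent.P.MP_50039c_nt.LV
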