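import Pool.Agent.P.MP_50039c_nt.LV.IfaceA

/-! Step ONEA. -/

set_option autoImplicit false
set_option linter.unusedSectionVars false

namespace Pool.Agent.P.MP_50039c_nt.LV

open Module

universe u

namespace ONEAx

variable {L K : Type u} [Field L] [Field K] [Algebra L K] {P : Loc L K} {f : K} {c : L}

theorem un_add (h : f - algebraMap L K c ∈ P.m) {a : L} (ha : c + a ≠ 0) :
    P.Un (f + algebraMap L K a) :=
  Loc.un_of_res ha (by rw [map_add, add_sub_add_right_eq_sub]; exact h)

theorem quo (h : f - algebraMap L K c ∈ P.m) {a : L} (h1 : c + a ≠ 0) (h2 : c + -a ≠ 0) :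
    P.Un ((f - algebraMap L K a) / (f + algebraMap L K a)) ∧
    (∀ Z, P.Sq Z → f - algebraMap L K c ∈ Z →
      (f - algebraMap L K a) / (f + algebraMap L K a) ∈ Z) ∧
    ∃ β ∈ P.O, ∀ D : Derivation L K K,
      D ((f - algebraMap L K a) / (f + algebraMap L K a)) = β * D (f - algebraMap L K c) := by
  have u1 := un_add h h1
  have u2 := un_add h h2
  rw [map_neg, ← sub_eq_add_neg] at u2
  refine ⟨u2.div u1, fun Z hZ hs => ?_, 2 * algebraMap L K a / (f + algebraMap L K a) ^ 2,
    Loc.div_mem (mul_mem (by exact_mod_cast natCast_mem P.O 2) (P.O.algebraMap_mem a)) (u1.pow 2),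
    fun D => ?_⟩
  · have hf : f ∈ Z := by simpa using add_mem hs (Z.algebraMap_mem c)
    exact hZ.div_mem (sub_mem hf (Z.algebraMap_mem a)) u1 (add_mem hf (Z.algebraMap_mem a))
  · have := u1.ne
    rw [Derivation.leibniz_div]
    simp only [map_sub, map_add, Derivation.map_algebraMap, smul_eq_mul]
    field_simp
    ring

end ONEAx

theorem p_ONEA (L : Type u) [Field L] [IsAlgClosed L] [CharZero L] :
    S_ONEA L := by
  intro K _ _ P i c f hi hf h hc
  have a1 : c + 1 ≠ 0 := fun e => hc (by rw [eq_neg_of_add_eq_zero_left e]; norm_num)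
  have a2 : c + -1 ≠ 0 := fun e => hc (by rw [add_neg_eq_zero.1 e]; norm_num)
  have i4 : i ^ 4 = 1 := by rw [show i ^ 4 = (i ^ 2) ^ 2 by ring, hi]; norm_num
  have a3 : c + i ≠ 0 := fun e => hc (by rw [eq_neg_of_add_eq_zero_left e, ← i4]; ring)
  have a4 : c + -i ≠ 0 := fun e => hc (by rw [add_neg_eq_zero.1 e, i4])
  have q1 := ONEAx.quo h a1 a2
  have q2 := ONEAx.quo h a3 a4
  rw [map_one] at q1
  have hO : f ∈ P.O := by simpa using add_mem (P.le _ h) (P.O.algebraMap_mem c)
  have hs : f - algebraMap L K c ≠ 0 := fun e =>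
    hf (sub_eq_zero.1 e ▸ isAlgebraic_algebraMap c)
  have h4 : P.Un (f ^ 4 - 1) := Loc.un_of_res (sub_ne_zero.2 hc) (by
    have := Loc.mul' h (y := f ^ 3 + f ^ 2 * algebraMap L K c + f * algebraMap L K c ^ 2 +
      algebraMap L K c ^ 3) (by
        have := P.O.algebraMap_mem c
        exact add_mem (add_mem (add_mem (pow_mem hO 3) (mul_mem (pow_mem hO 2) this))
          (mul_mem hO (pow_mem this 2))) (pow_mem this 3))
    convert this using 1
    simp only [map_sub, map_pow, map_one]
    ring)
  have hD : ∀ D : Derivation L K K, D f = 1 * D (f - algebraMap L K c) := fun D => by simp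
  rcases eq_or_ne c 0 with rfl | c0
  · have e0 : f - algebraMap L K 0 = f := by simp
    have f0 : f ≠ 0 := e0 ▸ hs
    have key : (1 : K) ^ 2 * (f - algebraMap L K 0) / (f * (f ^ 4 - 1)) ∈ P.O := by
      have := h4.inv.1
      have h5 := h4.ne
      convert this using 1
      rw [e0]
      field_simp
    refine ⟨⟨some 0, f - algebraMap L K 0, h, hs, fun j hj => ?_, fun j hj => ?_,
      fun Z hZ hz j hj => ?_, fun j hj => ?_⟩, 1, hD, key, mul_mem hO key⟩
    · obtain rfl := Option.some.inj hj
      exact Or.inl e0.symm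
    · fin_cases j
      · exact absurd rfl hj
      · exact q1.1
      · exact q2.1
    · fin_cases j
      · exact absurd rfl hj
      · exact q1.2.1 Z hZ hz
      · exact q2.2.1 Z hZ hz
    · fin_cases j
      · exact absurd rfl hj
      · exact q1.2.2
      · exact q2.2.2
  · have uf : P.Un f := Loc.un_of_res c0 h
    have key : (1 : K) ^ 2 * 1 / (f * (f ^ 4 - 1)) ∈ P.O :=
      Loc.div_mem (by simp) (uf.mul h4)
    refine ⟨⟨none, f - algebraMap L K c, h, hs, fun j hj => by simp at hj, fun j _ => ?_,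
      fun Z hZ hz j _ => ?_, fun j _ => ?_⟩, 1, hD, key, mul_mem hO key⟩
    · fin_cases j
      · exact uf
      · exact q1.1
      · exact q2.1
    · fin_cases j
      · simpa [mob] using add_mem hz (Z.algebraMap_mem c)
      · exact q1.2.1 Z hZ hz
      · exact q2.2.1 Z hZ hz
    · fin_cases j
      · exact ⟨1, one_mem _, hD⟩
      · exact q1.2.2
      · exact q2.2.2

end Pool.Agent.P.MP_50039c_nt.LV
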