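import Pool.Agent.P.MP_50039c_nt.LV.IfaceA

/-! Step ONEB. -/

set_option autoImplicit false
set_option linter.unusedSectionVars false

namespace Pool.Agent.P.MP_50039c_nt.LV

open Module

universe u

namespace ONEBx

variable {L K : Type u} [Field L] [Field K] [Algebra L K] {P : Loc L K} {i c : L} {f : K}

theorem un_add (hf : f - algebraMap L K c ∈ P.m) {a : L} (h : c + a ≠ 0) :
    P.Un (f + algebraMap L K a) :=
  Loc.un_of_res h (by simpa [map_add] using hf)

theorem dm (D : Derivation L K K) {a : L} (h : f + algebraMap L K a ≠ 0) :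
    D ((f - algebraMap L K a) / (f + algebraMap L K a)) =
      2 * algebraMap L K a / (f + algebraMap L K a) ^ 2 * D f := by
  rw [D.leibniz_div, map_sub, map_add, D.map_algebraMap]
  simp only [smul_eq_mul]
  field_simp
  ring

theorem key [CharZero L] (ht : Transcendental L f) (hf : f - algebraMap L K c ∈ P.m)
    (hc : c ^ 4 = 1) (k : Fin 3)
    (hk : mob i f k = (f - algebraMap L K c) / (f + algebraMap L K c) ∨
      mob i f k = ((f - algebraMap L K c) / (f + algebraMap L K c))⁻¹)
    (hj : ∀ j, j ≠ k → mob i f j = f ∨ ∃ a : L, c ^ 2 ≠ a ^ 2 ∧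
      mob i f j = (f - algebraMap L K a) / (f + algebraMap L K a)) : One P i f := by
  have c0 : c ≠ 0 := fun e => by simp [e] at hc
  have uf : P.Un f := Loc.un_of_res c0 hf
  have uc : P.Un (algebraMap L K c) := Loc.un_const c0
  have u2 : P.Un (2 : K) := by simpa using Loc.un_nat (P := P) (n := 2) two_ne_zero
  have up : P.Un (f + algebraMap L K c) := un_add hf (by simpa [← two_mul] using c0)
  have n0 : f - algebraMap L K c ≠ 0 := fun e =>
    ht (sub_eq_zero.1 e ▸ isAlgebraic_algebraMap c)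
  have ua : ∀ a : L, c ^ 2 ≠ a ^ 2 →
      P.Un (f - algebraMap L K a) ∧ P.Un (f + algebraMap L K a) := fun a h =>
    ⟨by simpa [sub_eq_add_neg] using un_add hf (a := -a) fun e => h (by
        rw [add_neg_eq_zero.1 e]),
      un_add hf fun e => h (by rw [add_eq_zero_iff_eq_neg.1 e, neg_sq])⟩
  have ul : P.Un ((f + algebraMap L K c) ^ 2 / (2 * algebraMap L K c)) := (up.pow 2).div (u2.mul uc)
  have hD : ∀ D : Derivation L K K, D f = (f + algebraMap L K c) ^ 2 / (2 * algebraMap L K c) *
      D ((f - algebraMap L K c) / (f + algebraMap L K c)) := fun D => by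
    rw [dm D up.ne]
    have := up.ne
    have := uc.ne
    have := u2.ne
    field_simp
  have sm := Loc.div_m hf up
  have ne : ∀ j, some k ≠ some j → j ≠ k := fun j h e => h (e ▸ rfl)
  have uq : P.Un (f ^ 2 + algebraMap L K c ^ 2) := by
    convert (u2.mul (uc.pow 2)).add_m (Loc.mul' hf up.1) using 1
    ring
  have hw : ((f + algebraMap L K c) ^ 2 / (2 * algebraMap L K c)) ^ 2 *
      ((f - algebraMap L K c) / (f + algebraMap L K c)) / (f * (f ^ 4 - 1)) ∈ P.O := by
    have e : f ^ 4 - 1 = (f - algebraMap L K c) * (f + algebraMap L K c) *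
        (f ^ 2 + algebraMap L K c ^ 2) := by
      have : algebraMap L K c ^ 4 = 1 := by rw [← map_pow, hc, map_one]
      linear_combination this
    convert ((ul.pow 2).div ((uf.mul (up.pow 2)).mul uq)).1 using 1
    rw [e]
    have := up.ne
    have := uq.ne
    have := uf.ne
    field_simp
  refine ⟨⟨some k, _, sm, div_ne_zero n0 up.ne, fun j h => Option.some.inj h ▸ hk, fun j h => ?_,
    fun Z hZ hs j h => ?_, fun j h => ?_⟩, _, hD, hw, mul_mem uf.1 hw⟩
  · rcases hj j (ne j h) with e | ⟨a, ha, e⟩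
    · exact e.symm ▸ uf
    · exact e.symm ▸ (ua a ha).1.div (ua a ha).2
  · have fZ : f ∈ Z := hZ.cancel uf.1 (Loc.un_one.sub_m sm) (sub_mem (one_mem Z) hs) (by
      convert mul_mem (Z.algebraMap_mem c) (add_mem (one_mem Z) hs) using 1
      have := up.ne
      field_simp
      ring)
    rcases hj j (ne j h) with e | ⟨a, ha, e⟩
    · exact e.symm ▸ fZ
    · exact e.symm ▸ hZ.div_mem (sub_mem fZ (Z.algebraMap_mem a)) (ua a ha).2
        (add_mem fZ (Z.algebraMap_mem a))
  · rcases hj j (ne j h) with e | ⟨a, ha, e⟩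
    · exact ⟨_, ul.1, e.symm ▸ hD⟩
    · refine ⟨_, mul_mem (Loc.div_mem (mul_mem u2.1 (P.O.algebraMap_mem a)) ((ua a ha).2.pow 2))
        ul.1, fun D => ?_⟩
      rw [e, dm D (ua a ha).2.ne, mul_assoc, ← hD]

end ONEBx

theorem p_ONEB (L : Type u) [Field L] [IsAlgClosed L] [CharZero L] :
    S_ONEB L := by
  intro K _ _ P i c f hi ht hf hc
  have h : (c - 1) * (c + 1) * ((c - i) * (c + i)) = 0 := by
    linear_combination hc - (c ^ 2 - 1) * hi
  have n : (1 : L) ≠ -1 := by norm_num
  simp only [mul_eq_zero, sub_eq_zero, add_eq_zero_iff_eq_neg] at h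
  rcases h with (rfl | rfl) | rfl | rfl
  · refine ONEBx.key ht hf hc 1 (.inl (by simp [mob])) fun j hj => ?_
    fin_cases j
    exacts [.inl rfl, absurd rfl hj, .inr ⟨i, by simpa [hi] using n, rfl⟩]
  · refine ONEBx.key ht hf hc 1 (.inr (by simp [mob, sub_eq_add_neg])) fun j hj => ?_
    fin_cases j
    exacts [.inl rfl, absurd rfl hj, .inr ⟨i, by simpa [hi] using n, rfl⟩]
  · refine ONEBx.key ht hf hc 2 (.inl (by simp [mob])) fun j hj => ?_
    fin_cases j
    exacts [.inl rfl, .inr ⟨1, by simpa [hi] using n.symm, by simp [mob]⟩, absurd rfl hj]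
  · refine ONEBx.key ht hf hc 2 (.inr (by simp [mob, sub_eq_add_neg])) fun j hj => ?_
    fin_cases j
    exacts [.inl rfl, .inr ⟨1, by simpa [hi] using n.symm, by simp [mob]⟩, absurd rfl hj]

end Pool.Agent.P.MP_50039c_nt.LV
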