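import Pool.Agent.P.MP_50039c_nt.LV.IfaceA

/-! Step ONEI. -/

set_option autoImplicit false
set_option linter.unusedSectionVars false

namespace Pool.Agent.P.MP_50039c_nt.LV

open Module

universe u

namespace ONEIx

variable {L K : Type u} [Field L] [Field K] [Algebra L K] {P : Loc L K}

theorem un_add (a : L) {s : K} (hs : s ∈ P.m) : P.Un (1 + algebraMap L K a * s) :=
  Loc.un_one.add_m (P.mul _ (P.O.algebraMap_mem a) _ hs)

theorem un_sub (a : L) {s : K} (hs : s ∈ P.m) : P.Un (1 - algebraMap L K a * s) :=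
  Loc.un_one.sub_m (P.mul _ (P.O.algebraMap_mem a) _ hs)

theorem key (a : L) {s x : K} (hs : s ∈ P.m)
    (hx : x = (1 - algebraMap L K a * s) / (1 + algebraMap L K a * s)) :
    P.Un x ∧ (∀ Z, P.Sq Z → s ∈ Z → x ∈ Z) ∧
      ∃ β ∈ P.O, ∀ D : Derivation L K K, D x = β * D s := by
  have h1 := un_add a hs
  have h2 := un_sub a hs
  subst hx
  refine ⟨h2.div h1, fun Z hZ hsZ => hZ.div_mem
    (sub_mem (one_mem _) (mul_mem (Z.algebraMap_mem a) hsZ)) h1
    (add_mem (one_mem _) (mul_mem (Z.algebraMap_mem a) hsZ)),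
    -(2 * algebraMap L K a) / (1 + algebraMap L K a * s) ^ 2,
    Loc.div_mem (neg_mem (mul_mem (by exact_mod_cast natCast_mem P.O 2) (P.O.algebraMap_mem a)))
      (h1.pow 2), fun D => ?_⟩
  have h0 := h1.ne
  rw [Derivation.leibniz_div]
  simp only [map_sub, map_add, Derivation.map_one_eq_zero, Derivation.leibniz,
    Derivation.map_algebraMap, smul_eq_mul, mul_zero, add_zero, zero_sub, zero_add]
  field_simp
  ring

end ONEIx

theorem p_ONEI (L : Type u) [Field L] [IsAlgClosed L] [CharZero L] :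
    S_ONEI L := by
  intro K _ _ P i f _ hf hm
  have f0 : f ≠ 0 := fun e => hf (e ▸ isAlgebraic_zero)
  have k1 := ONEIx.key (P := P) 1 hm (x := (f - 1) / (f + 1)) (by
    have h := (ONEIx.un_add 1 hm).ne
    have h' : f + 1 ≠ 0 := fun e => h (by
      rw [map_one, one_mul, show (1 : K) + f⁻¹ = (f + 1) * f⁻¹ by field_simp, e, zero_mul])
    rw [map_one] at h ⊢
    field_simp)
  have k2 := ONEIx.key (P := P) i hm
    (x := (f - algebraMap L K i) / (f + algebraMap L K i)) (by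
    have h := (ONEIx.un_add i hm).ne
    have h' : f + algebraMap L K i ≠ 0 := fun e => h (by
      rw [show (1 : K) + algebraMap L K i * f⁻¹ = (f + algebraMap L K i) * f⁻¹ by field_simp, e,
        zero_mul])
    field_simp)
  have all : ∀ j : Fin 3, (some 0 : Option (Fin 3)) ≠ some j → P.Un (mob i f j) ∧
      (∀ Z, P.Sq Z → f⁻¹ ∈ Z → mob i f j ∈ Z) ∧
      ∃ β ∈ P.O, ∀ D : Derivation L K K, D (mob i f j) = β * D f⁻¹ := by
    intro j hj
    fin_cases j
    · exact absurd rfl hj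
    · exact k1
    · exact k2
  have hu : P.Un (1 - f⁻¹ ^ 4) := Loc.un_one.sub_m (by
    rw [pow_succ]; exact P.mul _ (pow_mem (P.le _ hm) 3) _ hm)
  have h4 : f ^ 4 - 1 ≠ 0 := fun e => hu.ne (by
    rw [show (1 : K) - f⁻¹ ^ 4 = (f ^ 4 - 1) * f⁻¹ ^ 4 by field_simp, e, zero_mul])
  have e1 : (-f ^ 2) ^ 2 * f⁻¹ / (f * (f ^ 4 - 1)) = f⁻¹ ^ 2 / (1 - f⁻¹ ^ 4) := by
    have := hu.ne
    field_simp
  have e2 : f * ((-f ^ 2) ^ 2 * f⁻¹ / (f * (f ^ 4 - 1))) = f⁻¹ / (1 - f⁻¹ ^ 4) := by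
    have := hu.ne
    field_simp
  refine ⟨⟨some 0, f⁻¹, hm, inv_ne_zero f0, fun j hj => ?_, fun j hj => (all j hj).1,
    fun Z hZ hs j hj => (all j hj).2.1 Z hZ hs, fun j hj => (all j hj).2.2⟩, -f ^ 2,
    fun D => ?_, ?_, ?_⟩
  · obtain rfl := Option.some.inj hj
    exact Or.inr (by simp [mob])
  · show D f = -f ^ 2 * D f⁻¹
    rw [Derivation.leibniz_inv, smul_eq_mul]
    field_simp
  · show (-f ^ 2) ^ 2 * f⁻¹ / (f * (f ^ 4 - 1)) ∈ P.O
    rw [e1]
    exact Loc.div_mem (pow_mem (P.le _ hm) 2) hu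
  · show f * ((-f ^ 2) ^ 2 * f⁻¹ / (f * (f ^ 4 - 1))) ∈ P.O
    rw [e2]
    exact Loc.div_mem (P.le _ hm) hu

end Pool.Agent.P.MP_50039c_nt.LV
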