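import Pool.Agent.P.MP_50039c_nt.LV.IfaceB

/-! Step PLANE. -/

set_option autoImplicit false
set_option linter.unusedSectionVars false

namespace Pool.Agent.P.MP_50039c_nt.LV

open MvPolynomial Module Pool.Agent.P.MP_6f117a_ag PJ
open scoped IntermediateField

universe u

theorem p_PLANE (L : Type u) [Field L] [IsAlgClosed L] [CharZero L]
    (hHYP : S_HYP L) :
    S_PLANE L := by
  rintro K _ _ z j k c F e hjk hz hr hj hF h0 ⟨a, ha, hne⟩
  obtain ⟨k', rfl⟩ := Fin.exists_succAbove_eq hjk.symm
  let y : Fin 3 → K := fun l => z (j.succAbove l)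
  let φ : Fin 4 → MvPolynomial (Fin 3) L := j.insertNth (C c * X k') fun l => X l
  have hφ : ∀ {R : Type u} [CommRing R] [Algebra L R] (w : Fin 4 → R),
      w j = algebraMap L R c * w (j.succAbove k') →
      aeval (fun l => w (j.succAbove l)) (aeval φ F) = aeval w F := by
    intro R _ _ w hw
    rw [← AlgHom.comp_apply, comp_aeval]
    congr 2
    funext i
    refine Fin.succAboveCases j ?_ (fun l => ?_) i
    · simp [φ, hw]
    · simp [φ]
  have hy : y ≠ 0 := by
    intro h
    apply hz
    funext i
    refine Fin.succAboveCases j ?_ (fun l => congrFun h l) i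
    rw [hj, show z (j.succAbove k') = 0 from congrFun h k']; simp
  obtain ⟨n, hn⟩ := Function.ne_iff.1 hy
  have hn' : y n ≠ 0 := hn
  have hm : ∀ i, z i / y n ∈ rat L y := by
    intro i
    refine Fin.succAboveCases j ?_ (fun l => ?_) i
    · rw [hj, mul_div_assoc]
      exact mul_mem (IntermediateField.algebraMap_mem _ c)
        (IntermediateField.subset_adjoin _ _ ⟨k', n, rfl⟩)
    · exact IntermediateField.subset_adjoin _ _ ⟨l, n, rfl⟩
  refine hHYP K 1 e y (aeval φ F) hy ?_ ?_ ?_ ?_
  · rw [eq_top_iff, ← hr]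
    refine IntermediateField.adjoin_le_iff.2 ?_
    rintro _ ⟨i, l, rfl⟩
    rw [← div_div_div_cancel_right₀ hn']
    exact div_mem (hm i) (hm l)
  · have := hF.aeval φ (n := 1) (fun i => by
      refine Fin.succAboveCases j ?_ (fun l => ?_) i
      · simpa [φ] using (isHomogeneous_X L k').C_mul c
      · simpa [φ] using isHomogeneous_X L l)
    simpa using this
  · intro h
    apply hne
    have := hφ a (by simpa using ha)
    rw [h, map_zero] at this
    rw [← coe_aeval_eq_eval]
    exact this.symm
  · rw [hφ z hj, h0]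

end Pool.Agent.P.MP_50039c_nt.LV
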