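import Pool.Agent.P.MP_50039c_nt.LV.IfaceB

/-! Step RAT. -/

set_option autoImplicit false
set_option linter.unusedSectionVars false

namespace Pool.Agent.P.MP_50039c_nt.LV

open MvPolynomial Module Pool.Agent.P.MP_6f117a_ag PJ
open scoped IntermediateField

universe u

theorem p_RAT (L : Type u) [Field L] [IsAlgClosed L] [CharZero L] :
    S_RAT L := by
  rintro K _ _ _ ⟨s, hs, h⟩
  obtain ⟨D, hD, -⟩ := exists_dt hs
  have D0 : D ≠ 0 := by rintro rfl; simp at hD
  have s0 : ∀ P : Place L K, P.v s ≠ 0 := fun P => by simpa using trans_ne hs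
  refine ⟨D, D0, fun P => ?_⟩
  rcases le_or_gt (P.v s) 1 with hP | hP
  · obtain ⟨a, ha⟩ := P.res hP
    obtain ⟨Z, h1, h2⟩ := (model (trans_sub hs a)).fund
    have t0 := trans_ne (trans_sub hs a)
    have := Finset.single_le_sum
      (f := fun P : Place L K => -WithZero.log (P.v (s - algebraMap L K a)))
      (fun Q hQ => neg_nonneg.2
        ((WithZero.log_le_iff_le_exp (by simpa using t0)).2 ((h1 Q).1 hQ).le))
      ((h1 P).2 ha)
    rw [h2, adjoin_sub, h, IntermediateField.finrank_top] at this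
    rw [P.κ_eq (by simpa using hD) t0 ha.ne]
    omega
  · have := (WithZero.lt_log_iff_exp_lt (s0 P)).2 hP
    rw [P.κ_eq hD (trans_ne hs) hP.ne']; omega

end Pool.Agent.P.MP_50039c_nt.LV
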