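import Pool.Agent.P.MP_50039c_nt.LV.IfaceB

/-! Step RING. -/

set_option autoImplicit false
set_option linter.unusedSectionVars false

namespace Pool.Agent.P.MP_50039c_nt.LV

open MvPolynomial Module Pool.Agent.P.MP_6f117a_ag PJ
open scoped IntermediateField

universe u

namespace RINGx

variable {L : Type u} [Field L] {K : Type u} [Field K] [Algebra L K] {M : ℕ}
  {z : Fin M → K} {a : Fin M → L}

def Rep (z : Fin M → K) (a : Fin M → L)
    (Φ : MvPolynomial (Fin M) L → MvPolynomial (Fin M) L → Prop) (x : K) : Prop :=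
  ∃ (e : ℕ) (P Q : MvPolynomial (Fin M) L), P.IsHomogeneous e ∧ Q.IsHomogeneous e ∧
    eval a Q ≠ 0 ∧ x = aeval z P / aeval z Q ∧ Φ P Q

theorem ne0 (h : OnY L z a) {e : ℕ} {Q : MvPolynomial (Fin M) L} (hQ : Q.IsHomogeneous e)
    (h0 : eval a Q ≠ 0) : aeval z Q ≠ 0 := fun h1 => h0 (h.2 Q ⟨⟨e, hQ⟩, h1⟩)

theorem Rep.add (h : OnY L z a) {Φ Ψ Θ : MvPolynomial (Fin M) L → MvPolynomial (Fin M) L → Prop}
    (hc : ∀ P Q P' Q', Φ P Q → Ψ P' Q' → Θ (P * Q' + Q * P') (Q * Q')) {x y : K}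
    (hx : Rep z a Φ x) (hy : Rep z a Ψ y) : Rep z a Θ (x + y) := by
  obtain ⟨e, P, Q, h1, h2, h3, rfl, h4⟩ := hx
  obtain ⟨e', P', Q', h1', h2', h3', rfl, h4'⟩ := hy
  refine ⟨e + e', P * Q' + Q * P', Q * Q', (h1.mul h2').add (h2.mul h1'), h2.mul h2',
    by rw [map_mul]; exact mul_ne_zero h3 h3', ?_, hc _ _ _ _ h4 h4'⟩
  rw [div_add_div _ _ (ne0 h h2 h3) (ne0 h h2' h3')]
  simp

theorem Rep.mul {Φ Ψ Θ : MvPolynomial (Fin M) L → MvPolynomial (Fin M) L → Prop}
    (hc : ∀ P Q P' Q', Φ P Q → Ψ P' Q' → Θ (P * P') (Q * Q')) {x y : K}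
    (hx : Rep z a Φ x) (hy : Rep z a Ψ y) : Rep z a Θ (x * y) := by
  obtain ⟨e, P, Q, h1, h2, h3, rfl, h4⟩ := hx
  obtain ⟨e', P', Q', h1', h2', h3', rfl, h4'⟩ := hy
  refine ⟨e + e', P * P', Q * Q', h1.mul h1', h2.mul h2',
    by rw [map_mul]; exact mul_ne_zero h3 h3', ?_, hc _ _ _ _ h4 h4'⟩
  rw [div_mul_div_comm]
  simp

theorem Rep.const {Φ : MvPolynomial (Fin M) L → MvPolynomial (Fin M) L → Prop} (c : L)
    (hc : Φ (C c) 1) : Rep z a Φ (algebraMap L K c) :=
  ⟨0, C c, 1, isHomogeneous_C _ c, isHomogeneous_one _ _, by simp, by simp, hc⟩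

def sub (h : OnY L z a) (Φ : MvPolynomial (Fin M) L → MvPolynomial (Fin M) L → Prop)
    (h1 : ∀ P Q P' Q', Φ P Q → Φ P' Q' → Φ (P * Q' + Q * P') (Q * Q'))
    (h2 : ∀ P Q P' Q', Φ P Q → Φ P' Q' → Φ (P * P') (Q * Q')) (h3 : ∀ c, Φ (C c) 1) :
    Subalgebra L K where
  carrier := {x | Rep z a Φ x}
  mul_mem' := fun hx hy => Rep.mul h2 hx hy
  add_mem' := fun hx hy => Rep.add h h1 hx hy
  algebraMap_mem' := fun c => Rep.const c (h3 c)

def loc (h : OnY L z a) : Loc L K where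
  O := sub h (fun _ _ => True) (fun _ _ _ _ _ _ => trivial) (fun _ _ _ _ _ _ => trivial)
    (fun _ => trivial)
  m :=
    { carrier := {x | Rep z a (fun P _ => eval a P = 0) x}
      add_mem' := fun hx hy => Rep.add h (fun P Q P' Q' h1 h2 => by simp [h1, h2]) hx hy
      zero_mem' := by
        have := Rep.const (z := z) (a := a) (Φ := fun P _ => eval a P = 0) (0 : L) (by simp)
        rwa [map_zero] at this
      smul_mem' := fun c x hx => by
        rw [Algebra.smul_def]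
        exact Rep.mul (Φ := fun _ _ => True) (fun P Q P' Q' _ h2 => by simp [h2])
          (Rep.const c trivial) hx }
  le := fun x ⟨e, P, Q, h1, h2, h3, h4, _⟩ => ⟨e, P, Q, h1, h2, h3, h4, trivial⟩
  mul := fun x hx y hy =>
    Rep.mul (Φ := fun _ _ => True) (Ψ := fun P _ => eval a P = 0) (Θ := fun P _ => eval a P = 0)
      (fun P Q P' Q' _ h2 => by simp [h2]) hx hy
  res := fun x ⟨e, P, Q, h1, h2, h3, h4, _⟩ => by
    refine ⟨eval a P / eval a Q, e, P - C (eval a P / eval a Q) * Q, Q,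
      h1.sub (h2.C_mul _), h2, h3, ?_, ?_⟩
    · have := ne0 h h2 h3
      rw [h4, map_sub, map_mul, aeval_C]
      field_simp
    · simp [h3]
  one := fun ⟨e, P, Q, h1, h2, h3, h4, h5⟩ => by
    have h6 := ne0 h h2 h3
    have h7 := h.2 (P - Q) ⟨⟨e, h1.sub h2⟩, by
      rw [map_sub, sub_eq_zero]
      exact (div_eq_one_iff_eq h6).1 h4.symm⟩
    rw [map_sub, h5, zero_sub, neg_eq_zero] at h7
    exact h3 h7
  inv := fun x ⟨e, P, Q, h1, h2, h3, h4, _⟩ hx =>
    ⟨e, Q, P, h2, h1, fun h5 => hx ⟨e, P, Q, h1, h2, h3, h4, h5⟩, by rw [h4, inv_div], trivial⟩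

noncomputable def dv (a v : Fin M → L) (G : MvPolynomial (Fin M) L) : L :=
  (fun j => eval a (pderiv j G)) ⬝ᵥ v

theorem dv_add (v : Fin M → L) (P Q : MvPolynomial (Fin M) L) :
    dv a v (P + Q) = dv a v P + dv a v Q := by
  simp [dv, dotProduct, add_mul, Finset.sum_add_distrib]

theorem dv_sub (v : Fin M → L) (P Q : MvPolynomial (Fin M) L) :
    dv a v (P - Q) = dv a v P - dv a v Q := by
  simp [dv, dotProduct, sub_mul, Finset.sum_sub_distrib]

theorem dv_mul (v : Fin M → L) (P Q : MvPolynomial (Fin M) L) :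
    dv a v (P * Q) = dv a v P * eval a Q + eval a P * dv a v Q := by
  simp only [dv, dotProduct, Finset.sum_mul, Finset.mul_sum, ← Finset.sum_add_distrib]
  refine Finset.sum_congr rfl fun j _ => ?_
  rw [pderiv_mul, map_add, map_mul, map_mul]
  ring

theorem dv_C (v : Fin M → L) (c : L) : dv a v (C c) = 0 := by
  simp [dv, dotProduct]

theorem dv_one (v : Fin M → L) : dv a v 1 = 0 := by
  simp [dv, dotProduct]

theorem dv_X (v : Fin M → L) (T : Fin M) : dv a v (X T) = v T := by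
  classical
  simp [dv, dotProduct, pderiv_X, Pi.single_apply, apply_ite]

end RINGx

open RINGx in
theorem p_RING (L : Type u) [Field L] [IsAlgClosed L] [CharZero L] :
    S_RING L := by
  intro K _ _ M z a h
  have key : ∀ p : K, ∃ l : Fin M → L, p ∈ (loc h).O → ∀ v, l ⬝ᵥ v = 0 →
      Rep z a (fun P Q => dv a v P * eval a Q = eval a P * dv a v Q) p := by
    intro p
    by_cases hp : p ∈ (loc h).O
    · obtain ⟨e, P, Q, h1, h2, h3, h4, -⟩ := hp
      refine ⟨fun j => eval a (pderiv j P) * eval a Q - eval a P * eval a (pderiv j Q),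
        fun _ v hv => ⟨e, P, Q, h1, h2, h3, h4, ?_⟩⟩
      beta_reduce
      rw [← sub_eq_zero, ← hv]
      simp only [RINGx.dv, dotProduct, Finset.sum_mul, Finset.mul_sum, ← Finset.sum_sub_distrib]
      exact Finset.sum_congr rfl fun j _ => by ring
    · exact ⟨0, fun h' => absurd h' hp⟩
  choose lam hlam using key
  refine ⟨loc h, lam, fun x => ⟨fun ⟨e, P, Q, h1, h2, h3, h4, _⟩ => ⟨e, P, Q, h1, h2, h3, h4⟩,
    fun ⟨e, P, Q, h1, h2, h3, h4⟩ => ⟨e, P, Q, h1, h2, h3, h4, trivial⟩⟩, fun v hv => ?_⟩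
  refine ⟨sub h (fun P Q => dv a v P * eval a Q = eval a P * dv a v Q) ?_ ?_ ?_, ?_,
    fun p hp hl => hlam p hp v hl, ?_⟩
  · intro P Q P' Q' h1 h2
    simp only [dv_add, dv_mul, map_add, map_mul]
    linear_combination (eval a Q') ^ 2 * h1 + (eval a Q) ^ 2 * h2
  · intro P Q P' Q' h1 h2
    simp only [dv_mul, map_mul]
    linear_combination eval a P' * eval a Q' * h1 + eval a P * eval a Q * h2
  · intro c
    simp [dv_C, dv_one]
  · intro x hx y hy
    exact Rep.mul (Φ := fun P _ => eval a P = 0) (Ψ := fun P _ => eval a P = 0)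
      (fun P Q P' Q' h1 h2 => by simp [dv_mul, h1, h2]) hx hy
  · rintro S T hS hvS ⟨e, P, Q, h1, h2, h3, h4, h5⟩
    have zS : z S ≠ 0 := by
      have := ne0 h (isHomogeneous_X L S) (by simpa using hS)
      simpa using this
    have hG : Form L z (X T * Q - X S * P) := by
      refine ⟨⟨1 + e, ((isHomogeneous_X L T).mul h2).sub ((isHomogeneous_X L S).mul h1)⟩, ?_⟩
      rw [div_eq_div_iff zS (ne0 h h2 h3)] at h4
      simp only [map_sub, map_mul, aeval_X]
      linear_combination h4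
    have g1 := h.2 _ hG
    have g2 : dv a v (X T * Q - X S * P) = 0 := hv _ hG
    simp only [map_sub, map_mul, eval_X] at g1
    simp only [dv_sub, dv_mul, dv_X, eval_X, hvS] at g2
    have g3 : v T * (eval a Q) ^ 2 = 0 := by
      linear_combination eval a Q * g2 - dv a v Q * g1 + a S * h5
    exact (mul_eq_zero.1 g3).resolve_right (pow_ne_zero 2 h3)

end Pool.Agent.P.MP_50039c_nt.LV
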