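import Pool.Agent.P.MP_50039c_nt.LV.IfaceB

/-! Step STEPR. -/

set_option autoImplicit false
set_option linter.unusedSectionVars false

namespace Pool.Agent.P.MP_50039c_nt.LV

open MvPolynomial Module Pool.Agent.P.MP_6f117a_ag PJ
open scoped IntermediateField

universe u

namespace STEPRx

theorem not_sq {L : Type u} [Field L] [IsAlgClosed L] [CharZero L] {K : Type u} [Field K]
    [Algebra L K] [FF L K] {s : K} (hs : Transcendental L s) (ht : L⟮s⟯ = ⊤) (c : K) :
    c ^ 2 ≠ s := by
  intro hc
  obtain ⟨Z, -, h2⟩ := exists_poles hs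
  have h1 : finrank L⟮s⟯ K = 1 := by
    rw [ht]; exact IntermediateField.finrank_top
  rw [h1] at h2
  have h3 : ∀ P ∈ Z, WithZero.log (P.v s) = 2 * WithZero.log (P.v c) := by
    intro P _
    rw [← hc, map_pow, WithZero.log_pow]; simp
  rw [Finset.sum_congr rfl h3, ← Finset.mul_sum] at h2
  omega

end STEPRx

theorem p_STEPR (L : Type u) [Field L] [IsAlgClosed L] [CharZero L] :
    S_STEPR L := by
  intro K _ _ _ ⟨s, hs, ht⟩
  obtain ⟨m, hm⟩ := IsAlgClosed.exists_pow_nat_eq (algebraMap K (AlgebraicClosure K) s)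
    (show 0 < 2 by norm_num)
  have hint : IsIntegral K m := Algebra.IsIntegral.isIntegral m
  have hfd : FiniteDimensional K K⟮m⟯ := IntermediateField.adjoin.finiteDimensional hint
  let g : K⟮m⟯ := IntermediateField.AdjoinSimple.gen K m
  have hg : g ^ 2 = algebraMap K K⟮m⟯ s := Subtype.ext hm
  refine ⟨K⟮m⟯, inferInstance, inferInstance, inferInstance, inferInstance, hfd, ?_, g, ?_, ?_⟩
  · have hpos : 0 < finrank K K⟮m⟯ := Module.finrank_pos
    by_contra hlt
    have h1 : finrank K K⟮m⟯ = 1 := by omega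
    rw [IntermediateField.finrank_adjoin_simple_eq_one_iff, IntermediateField.mem_bot] at h1
    obtain ⟨c, hc⟩ := h1
    refine STEPRx.not_sq hs ht c ((algebraMap K (AlgebraicClosure K)).injective ?_)
    rw [map_pow, hc, hm]
  · intro halg
    have h2 : IsAlgebraic L (algebraMap K K⟮m⟯ s) := hg ▸ halg.pow 2
    exact hs ((isAlgebraic_algebraMap_iff (algebraMap K K⟮m⟯).injective).1 h2)
  · have hK : ∀ x : K, algebraMap K K⟮m⟯ x ∈ L⟮g⟯ := by
      intro x
      have hx : x ∈ L⟮s⟯ := ht ▸ IntermediateField.mem_top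
      have hle : L⟮s⟯ ≤ (L⟮g⟯).comap (IsScalarTower.toAlgHom L K K⟮m⟯) := by
        rw [IntermediateField.adjoin_simple_le_iff]
        change algebraMap K K⟮m⟯ s ∈ L⟮g⟯
        rw [← hg]
        exact pow_mem (IntermediateField.mem_adjoin_simple_self L g) 2
      exact hle hx
    rw [eq_top_iff]
    intro y _
    have htop : K⟮g⟯ = ⊤ := by
      have := (IntermediateField.adjoin.powerBasis hint).adjoin_gen_eq_top
      rw [IntermediateField.adjoin.powerBasis_gen] at this
      rw [eq_top_iff]
      intro z _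
      have hz : z ∈ Algebra.adjoin K {g} := by rw [show Algebra.adjoin K {g} = ⊤ from this]; trivial
      exact IntermediateField.algebra_adjoin_le_adjoin K {g} hz
    have hy : y ∈ K⟮g⟯ := htop ▸ IntermediateField.mem_top
    let F : IntermediateField K K⟮m⟯ := (L⟮g⟯).toSubfield.toIntermediateField hK
    have hle : K⟮g⟯ ≤ F := by
      rw [IntermediateField.adjoin_simple_le_iff]
      exact IntermediateField.mem_adjoin_simple_self L g
    exact hle hy

end Pool.Agent.P.MP_50039c_nt.LV
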