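import Pool.Agent.P.MP_50039c_nt.LV.IfaceB

/-! Step STEPW. -/

set_option autoImplicit false
set_option linter.unusedSectionVars false

namespace Pool.Agent.P.MP_50039c_nt.LV

open MvPolynomial Module Pool.Agent.P.MP_6f117a_ag PJ
open scoped IntermediateField

universe u

namespace STEPWx

variable {L K : Type u} [Field L] [Field K] [Algebra L K]

theorem not_mem {X m : K} (hX : Transcendental L X) (hm : m ^ 2 = X) : m ∉ L⟮X⟯ := by
  intro h
  obtain ⟨r, s, e⟩ := (IntermediateField.mem_adjoin_simple_iff L m).1 h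
  have X0 : X ≠ 0 := fun e => hX (e ▸ isAlgebraic_zero)
  have s0 : Polynomial.aeval X s ≠ 0 := fun e' => X0 (by rw [← hm, e, e']; simp)
  have h1 : r ^ 2 = Polynomial.X * s ^ 2 := transcendental_iff_injective.1 hX (by
    rw [map_mul, map_pow, map_pow, Polynomial.aeval_X]
    rw [e, div_pow, div_eq_iff (pow_ne_zero 2 s0)] at hm
    exact hm)
  have s1 : s ≠ 0 := fun e' => s0 (by simp [e'])
  have h2 := congrArg Polynomial.natDegree h1
  rw [Polynomial.natDegree_mul Polynomial.X_ne_zero (pow_ne_zero 2 s1), Polynomial.natDegree_pow,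
    Polynomial.natDegree_pow, Polynomial.natDegree_X] at h2
  omega

theorem lin {F : Type u} [Field F] [Algebra F K] {Y : K} {c : F} (h : Y ^ 2 = algebraMap F K c)
    {z : K} (hz : z ∈ Algebra.adjoin F {Y}) :
    ∃ u v : F, z = algebraMap F K u + algebraMap F K v * Y := by
  induction hz using Algebra.adjoin_induction with
  | mem x hx => exact ⟨0, 1, by simpa using hx⟩
  | algebraMap r => exact ⟨r, 0, by simp⟩
  | add x y _ _ hx hy =>
    obtain ⟨u, v, rfl⟩ := hx
    obtain ⟨u', v', rfl⟩ := hy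
    exact ⟨u + u', v + v', by simp only [map_add]; ring⟩
  | mul x y _ _ hx hy =>
    obtain ⟨u, v, rfl⟩ := hx
    obtain ⟨u', v', rfl⟩ := hy
    exact ⟨u * u' + v * v' * c, u * v' + v * u', by
      simp only [map_add, map_mul, ← h]; ring⟩

theorem rat {X Y m : K} (hX : Transcendental L X) (hY : Y ^ 2 ∈ L⟮X⟯) (ht : L⟮X, Y⟯ = ⊤)
    (hm : m ^ 2 = X) : Ratl L K := by
  have hi : IsIntegral L⟮X⟯ Y := IsIntegral.of_pow two_pos
    (isIntegral_algebraMap (x := (⟨_, hY⟩ : L⟮X⟯)))
  have h1 : m ∈ L⟮X⟯⟮Y⟯ := by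
    have := IntermediateField.adjoin_simple_adjoin_simple L X Y
    rw [ht] at this
    exact (IntermediateField.mem_restrictScalars L).1 (this ▸ IntermediateField.mem_top)
  rw [← IntermediateField.mem_toSubalgebra,
    IntermediateField.adjoin_simple_toSubalgebra_of_isAlgebraic hi.isAlgebraic] at h1
  obtain ⟨u, v, e⟩ := lin (c := (⟨_, hY⟩ : L⟮X⟯)) rfl h1
  have v0 : (v : K) ≠ 0 := fun e' => not_mem hX hm (by
    rw [e, IntermediateField.algebraMap_apply, IntermediateField.algebraMap_apply, e', zero_mul,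
      add_zero]
    exact u.2)
  have mm := IntermediateField.mem_adjoin_simple_self L m
  have hle : L⟮X⟯ ≤ L⟮m⟯ := IntermediateField.adjoin_simple_le_iff.2 (hm ▸ pow_mem mm 2)
  refine ⟨m, fun h => hX (hm ▸ h.pow 2), top_le_iff.1 (ht ▸ IntermediateField.adjoin_le_iff.2 ?_)⟩
  rintro z (rfl | rfl)
  · exact hle (IntermediateField.mem_adjoin_simple_self L z)
  · have : z = (m - u) / v := by
      rw [eq_div_iff v0, e, IntermediateField.algebraMap_apply, IntermediateField.algebraMap_apply]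
      ring
    exact this ▸ div_mem (sub_mem mm (hle u.2)) (hle v.2)

theorem wei [CharZero L] {K' : Type u} [Field K'] [Algebra L K'] [Algebra K K']
    [IsScalarTower L K K'] {X Y : K} {a b : L} (hX : Transcendental L X)
    (hY : Y ^ 2 = X * (X ^ 2 + algebraMap L K a * X + algebraMap L K b)) (hb : b ≠ 0)
    (hab : a ^ 2 ≠ 4 * b) (ht : L⟮X, Y⟯ = ⊤) {m : K'} (hm : m ^ 2 = algebraMap K K' X)
    (hK : Algebra.adjoin K {m} = ⊤) : Wei L K' := by
  have : CharZero K' := charZero_of_injective_algebraMap (algebraMap L K').injective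
  have hX' : Transcendental L (m ^ 2) := fun h => hX ((isAlgebraic_algebraMap_iff
    (algebraMap K K').injective).1 (hm ▸ h))
  have m0 : m ≠ 0 := fun e => hX' (by rw [e, zero_pow two_ne_zero]; exact isAlgebraic_zero)
  have hY' := congrArg (algebraMap K K') hY
  simp only [map_mul, map_add, map_pow, ← hm, ← IsScalarTower.algebraMap_apply] at hY'
  obtain ⟨α, hα⟩ : ∃ α : L, α = -a / 2 := ⟨_, rfl⟩
  obtain ⟨β, hβ⟩ : ∃ β : L, β = (α ^ 2 - b) / 4 := ⟨_, rfl⟩
  have ea : algebraMap L K' a = -2 * algebraMap L K' α := by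
    rw [show a = -2 * α by rw [hα]; ring, map_mul, map_neg, map_ofNat]
  have eb : algebraMap L K' b = algebraMap L K' α ^ 2 - 4 * algebraMap L K' β := by
    rw [show b = α ^ 2 - 4 * β by rw [hβ]; ring, map_sub, map_mul, map_pow, map_ofNat]
  have β0 : β ≠ 0 := fun e => hab (by
    rw [hα] at hβ
    linear_combination (-16) * hβ + 16 * e)
  obtain ⟨x, hx⟩ : ∃ x : K', x = (m ^ 2 - algebraMap L K' α - algebraMap K K' Y / m) / 2 :=
    ⟨_, rfl⟩
  have eY : algebraMap K K' Y = m * (m ^ 2 - algebraMap L K' α - 2 * x) := by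
    rw [hx]; field_simp; ring
  have hq : x ^ 2 - (m ^ 2 - algebraMap L K' α) * x + algebraMap L K' β = 0 := by
    rw [eY, ea, eb] at hY'
    apply mul_left_cancel₀ (mul_ne_zero (pow_ne_zero 2 m0) (by norm_num : (4 : K') ≠ 0))
    linear_combination hY'
  have x0 : x ≠ 0 := fun e => β0 (by simpa [e] using hq)
  have eX : m ^ 2 = x + algebraMap L K' α + algebraMap L K' β * x⁻¹ := by
    field_simp; linear_combination -hq
  refine ⟨x, m * x, α, β, fun h => hX' (eX ▸ (h.add (isAlgebraic_algebraMap α)).add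
    ((isAlgebraic_algebraMap β).mul h.inv)), by linear_combination (-x) * hq, β0,
    fun e => hb (by linear_combination e + 4 * hβ), ?_⟩
  have h1 : x ∈ L⟮x, m * x⟯ := IntermediateField.subset_adjoin _ _ (by simp)
  have h2 : m ∈ L⟮x, m * x⟯ := by
    have := div_mem (IntermediateField.subset_adjoin L {x, m * x} (by simp : m * x ∈ _)) h1
    rwa [mul_div_cancel_right₀ _ x0] at this
  have h3 : L⟮X, Y⟯ ≤ L⟮x, m * x⟯.comap (IsScalarTower.toAlgHom L K K') := by
    refine IntermediateField.adjoin_le_iff.2 ?_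
    rintro z (rfl | rfl)
    · show algebraMap K K' z ∈ L⟮x, m * x⟯
      exact hm ▸ pow_mem h2 2
    · show algebraMap K K' z ∈ L⟮x, m * x⟯
      exact eY ▸ mul_mem h2 (sub_mem (sub_mem (pow_mem h2 2) (IntermediateField.algebraMap_mem _ α))
        (mul_mem (ofNat_mem _ 2) h1))
  refine top_le_iff.1 fun z hz => ?_
  have hz' : z ∈ Algebra.adjoin K {m} := hK ▸ Algebra.mem_top
  clear hz
  induction hz' using Algebra.adjoin_induction with
  | mem y hy => exact (Set.mem_singleton_iff.1 hy) ▸ h2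
  | algebraMap r => exact h3 (ht ▸ IntermediateField.mem_top)
  | add _ _ _ _ h h' => exact add_mem h h'
  | mul _ _ _ _ h h' => exact mul_mem h h'

end STEPWx

theorem p_STEPW (L : Type u) [Field L] [IsAlgClosed L] [CharZero L] :
    S_STEPW L := by
  intro K _ _ _ ⟨X, Y, a, b, hX, hY, hb, hab, ht⟩
  by_cases h : ∃ m : K, m ^ 2 = X
  · obtain ⟨m, hm⟩ := h
    have xx := IntermediateField.mem_adjoin_simple_self L X
    exact Or.inl (STEPWx.rat hX (hY ▸ mul_mem xx (add_mem (add_mem (pow_mem xx 2)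
      (mul_mem (IntermediateField.algebraMap_mem _ a) xx)) (IntermediateField.algebraMap_mem _ b)))
      ht hm)
  · have : Fact (Irreducible (Polynomial.X ^ 2 - Polynomial.C X)) :=
      ⟨X_pow_sub_C_irreducible_of_prime Nat.prime_two (fun m hm => h ⟨m, hm⟩)⟩
    have hf : (Polynomial.X ^ 2 - Polynomial.C X : Polynomial K) ≠ 0 :=
      Polynomial.X_pow_sub_C_ne_zero two_pos X
    refine Or.inr ⟨AdjoinRoot (Polynomial.X ^ 2 - Polynomial.C X), inferInstance, inferInstance,
      inferInstance, inferInstance, (AdjoinRoot.powerBasis hf).finite, ?_,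
      STEPWx.wei hX hY hb hab ht (m := AdjoinRoot.root _) ?_ AdjoinRoot.adjoinRoot_eq_top⟩
    · rw [(AdjoinRoot.powerBasis hf).finrank, AdjoinRoot.powerBasis_dim,
        Polynomial.natDegree_X_pow_sub_C]
    · have := AdjoinRoot.eval₂_root (Polynomial.X ^ 2 - Polynomial.C X)
      simpa [sub_eq_zero] using this

end Pool.Agent.P.MP_50039c_nt.LV
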