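import Pool.Agent.P.MP_50039c_nt.LV.IfaceA

/-! Step TA. -/

set_option autoImplicit false
set_option linter.unusedSectionVars false

namespace Pool.Agent.P.MP_50039c_nt.LV

open Module

universe u

namespace TAx

/-- The common core of both cases: `p ^ 2 = s * B` and `q * B = p`. -/
theorem core {L K : Type u} [Field L] [Field K] [Algebra L K] {P : Loc L K} {p q B s : K}
    (hp : P.PM p) (p0 : p ≠ 0) (q0 : q ≠ 0) (hs : s ∈ P.m) (hB : P.Un B) (h2 : p ^ 2 = s * B)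
    (hq : q * B = p) : p ∈ P.m ∧ ∀ Z, P.Sq Z → p ∈ Z → P.In Z p ∧ P.In Z q := by
  have pm : p ∈ P.m := Loc.m_of_sq hp (h2 ▸ Loc.mul' hs hB.1)
  have qm : q ∈ P.m := hB.cancel (hq ▸ pm)
  exact ⟨pm, fun Z hZ hpZ => ⟨Loc.in_m pm p0 hpZ,
    Loc.in_m qm q0 (hZ.cancel_m qm hB (hq ▸ hpZ))⟩⟩

end TAx

theorem p_TA (L : Type u) [Field L] [IsAlgClosed L] [CharZero L] :
    S_TA L := by
  rintro K _ _ P u v A B s ⟨u0, v0, huv, hu⟩ pu pv hs s0 (rfl | rfl) hB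
  · have h2 : u ^ 2 = A * B := by rw [← huv, sq, mul_assoc, ← hu]
    obtain ⟨h, h'⟩ := TAx.core pu u0 v0 hs hB h2 hu.symm
    exact ⟨u, h, h2, h'⟩
  · have b0 := hB.ne
    have h1 : s * (v * B * v) = 1 := by rw [← hu, huv, mul_inv_cancel₀ s0]
    have h2 : v⁻¹ ^ 2 = s * B := by
      field_simp
      linear_combination -h1
    have h3 : u⁻¹ * B = v⁻¹ := by
      rw [hu]
      field_simp
    obtain ⟨h, h'⟩ := TAx.core pv.inv (inv_ne_zero v0) (inv_ne_zero u0) hs hB h2 h3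
    refine ⟨v⁻¹, h, h2, fun Z hZ hp => ?_⟩
    have h4 := h' Z hZ hp
    exact ⟨inv_inv u ▸ h4.2.inv, inv_inv v ▸ h4.1.inv⟩

end Pool.Agent.P.MP_50039c_nt.LV
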