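import Pool.Agent.P.MP_50039c_nt.LV.IfaceA

/-! Step TAB. -/

set_option autoImplicit false
set_option linter.unusedSectionVars false

namespace Pool.Agent.P.MP_50039c_nt.LV

open Module

universe u

namespace TABx

theorem core {L K : Type u} [Field L] [CharZero L] [Field K] [Algebra L K] (P : Loc L K)
    {u v s t : K} (h : Tor u v s t) (hu : P.PM u) (hv : P.PM v) (hs : s ∈ P.m) (s0 : s ≠ 0)
    (ht : t ∈ P.m) (t0 : t ≠ 0) : ∃ p ∈ P.O, ∃ q ∈ P.O, ∃ κ : K,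
      (∀ Z, P.Sq Z → p ∈ Z → q ∈ Z → s ∈ Z ∧ t ∈ Z ∧ P.In Z u ∧ P.In Z v) ∧
      (∀ D E : Derivation L K K, jac D E s t = κ * jac D E p q) ∧ κ ^ 2 / (s * t) ∈ P.O := by
  obtain ⟨u0, v0, h1, h2⟩ := h
  have um : u ∈ P.m := Loc.m_of_sq hu (by
    rw [show u ^ 2 = s * t by rw [← h1, mul_assoc, ← h2, sq]]
    exact Loc.mul' hs (P.le t ht))
  have four : (4 : K) ∈ P.O := by simp
  by_cases hO : v ∈ P.O
  · have e : s = v * v * t := by rw [← h1, h2]; ring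
    refine ⟨v, hO, t, P.le t ht, 2 * v * t, fun Z hZ a b => ?_, fun D E => ?_, ?_⟩
    · refine ⟨e ▸ mul_mem (mul_mem a a) b, b, Loc.in_m um u0 (h2 ▸ mul_mem a b), fun _ => a,
        fun c => hZ.inv_mem ⟨hO, fun d => Loc.not_inv d v0 c⟩ a⟩
    · rw [e]
      simp only [jac, Derivation.leibniz, smul_eq_mul]
      ring
    · rwa [show (2 * v * t) ^ 2 / (s * t) = 4 by rw [e]; field_simp; ring]
  · have wm := Loc.inv_m hO (hv.resolve_left hO)
    have e1 : u = v⁻¹ * s := by rw [← h1]; field_simp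
    have e2 : t = v⁻¹ * v⁻¹ * s := by rw [← h1, h2]; field_simp
    refine ⟨s, P.le s hs, v⁻¹, P.le _ wm, 2 * v⁻¹ * s, fun Z hZ a b => ?_, fun D E => ?_, ?_⟩
    · exact ⟨a, e2 ▸ mul_mem (mul_mem b b) a, Loc.in_m um u0 (e1 ▸ mul_mem b a),
        fun c => absurd c hO, fun _ => b⟩
    · rw [e2]
      generalize v⁻¹ = w
      simp only [jac, Derivation.leibniz, smul_eq_mul]
      ring
    · rwa [show (2 * v⁻¹ * s) ^ 2 / (s * t) = 4 by rw [e2]; field_simp; ring]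

end TABx

theorem p_TAB (L : Type u) [Field L] [IsAlgClosed L] [CharZero L] :
    S_TAB L := by
  rintro K _ _ P u v A B s t ⟨u0, v0, h1, h2⟩ hu hv hs s0 ht t0 (hA | hA) (hB | hB) <;>
    rw [hA] at h1 <;> rw [hB] at h2
  · exact TABx.core P ⟨u0, v0, h1, h2⟩ hu hv hs s0 ht t0
  · obtain ⟨p, hp, q, hq, κ, a, b⟩ := TABx.core P (u := v) (v := u)
      ⟨v0, u0, by rw [← h1, mul_comm], by rw [h2]; field_simp⟩ hv hu hs s0 ht t0
    exact ⟨p, hp, q, hq, κ, fun Z hZ c d => by have := a Z hZ c d; tauto, b⟩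
  · obtain ⟨p, hp, q, hq, κ, a, b⟩ := TABx.core P (u := v⁻¹) (v := u⁻¹)
      ⟨inv_ne_zero v0, inv_ne_zero u0, by rw [← mul_inv, mul_comm, h1, inv_inv],
        by rw [h2]; field_simp⟩ hv.inv hu.inv hs s0 ht t0
    refine ⟨p, hp, q, hq, κ, fun Z hZ c d => ?_, b⟩
    obtain ⟨a1, a2, a3, a4⟩ := a Z hZ c d
    exact ⟨a1, a2, by simpa using a4.inv, by simpa using a3.inv⟩
  · obtain ⟨p, hp, q, hq, κ, a, b⟩ := TABx.core P (u := u⁻¹) (v := v⁻¹)
      ⟨inv_ne_zero u0, inv_ne_zero v0, by rw [← mul_inv, h1, inv_inv],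
        by rw [h2]; field_simp⟩ hu.inv hv.inv hs s0 ht t0
    refine ⟨p, hp, q, hq, κ, fun Z hZ c d => ?_, b⟩
    obtain ⟨a1, a2, a3, a4⟩ := a Z hZ c d
    exact ⟨a1, a2, by simpa using a3.inv, by simpa using a4.inv⟩

end Pool.Agent.P.MP_50039c_nt.LV
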