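import Pool.Agent.P.MP_50039c_nt.LV.IfaceA

/-! Step TMIX. -/

set_option autoImplicit false
set_option linter.unusedSectionVars false

namespace Pool.Agent.P.MP_50039c_nt.LV

open Module

universe u

namespace TMIXx

theorem step {L K : Type u} [Field L] [Field K] [Algebra L K] {P : Loc L K} {s t p w : K}
    (hs : s ∈ P.m) (s0 : s ≠ 0)
    (h : (p = s ∧ w = 1) ∨ (w = s ∧ ∃ B, P.Un B ∧ p ^ 2 = s * B ∧
      ∃ β ∈ P.O, ∀ D : Derivation L K K, D B = β * D t)) :
    ∃ a b c : K, a ^ 2 / w ∈ P.O ∧ P.Un b ∧ c ∈ P.m ∧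
      ∀ D : Derivation L K K, a * D p = b * D s + c * D t := by
  rcases h with ⟨rfl, rfl⟩ | ⟨rfl, B, hB, e, β, hβ, hD⟩
  · exact ⟨1, 1, 0, by simp, Loc.un_one, P.m.zero_mem, fun D => by simp⟩
  · refine ⟨2 * p, B, w * β, ?_, hB, Loc.mul' hs hβ, fun D => ?_⟩
    · have : (2 * p) ^ 2 / w = B + B + B + B := by
        rw [mul_pow, e]; field_simp; ring
      exact this ▸ add_mem (add_mem (add_mem hB.1 hB.1) hB.1) hB.1
    · have := congrArg D e
      simp only [sq, Derivation.leibniz, smul_eq_mul, hD] at this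
      linear_combination this

end TMIXx

theorem p_TMIX (L : Type u) [Field L] [IsAlgClosed L] [CharZero L] :
    S_TMIX L := by
  intro K _ _ P s t p q w w' hs s0 ht t0 h h'
  obtain ⟨a, b, c, ha, hb, hc, e⟩ := TMIXx.step hs s0 h
  obtain ⟨a', b', c', ha', hb', hc', e'⟩ := TMIXx.step ht t0 h'
  have hu : P.Un (b * b' - c * c') := (hb.mul hb').sub_m (P.mul c (P.le c hc) c' hc')
  refine ⟨a * a' / (b * b' - c * c'), fun D E => ?_, ?_⟩
  · rw [div_mul_eq_mul_div, eq_div_iff hu.ne, jac, jac]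
    linear_combination (-(a' * E q)) * e D - (b * D s + c * D t) * e' E
      + (a' * D q) * e E + (b * E s + c * E t) * e' D
  · have : (a * a' / (b * b' - c * c')) ^ 2 / (w * w') =
        a ^ 2 / w * (a' ^ 2 / w') / (b * b' - c * c') ^ 2 := by
      generalize b * b' - c * c' = d
      ring
    exact this ▸ Loc.div_mem (mul_mem ha ha') (hu.pow 2)

end Pool.Agent.P.MP_50039c_nt.LV
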