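import Pool.Agent.P.MP_50039c_nt.LV.IfaceA

/-! Step TN. -/

set_option autoImplicit false
set_option linter.unusedSectionVars false

namespace Pool.Agent.P.MP_50039c_nt.LV

open Module

universe u

theorem p_TN (L : Type u) [Field L] [IsAlgClosed L] [CharZero L] :
    S_TN L := by
  rintro K _ _ P u v A B ⟨hu, hv, hA, hB⟩ pu pv uA uB Z hZ aZ bZ
  have e1 : u ^ 2 = A * B := by
    rw [← hA]
    calc u ^ 2 = u * u := sq u
      _ = u * (v * B) := by rw [← hB]
      _ = u * v * B := by ring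
  have e2 : v ^ 2 = A / B := by
    rw [eq_div_iff uB.ne, ← hA]
    calc v ^ 2 * B = (v * B) * v := by ring
      _ = u * v := by rw [← hB]
  have h1 : P.Un u := Loc.un_of_sq pu (e1 ▸ uA.mul uB)
  have h2 : P.Un v := Loc.un_of_sq pv (e2 ▸ uA.div uB)
  exact ⟨hZ.in_un h1 (hZ.of_sq h1 (e1 ▸ mul_mem aZ bZ)),
    hZ.in_un h2 (hZ.of_sq h2 (e2 ▸ hZ.div_mem aZ uB bZ))⟩

end Pool.Agent.P.MP_50039c_nt.LV
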