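import Pool.Agent.P.MP_50039c_nt.LV.IfaceB

/-! Step TOW. -/

set_option autoImplicit false
set_option linter.unusedSectionVars false

namespace Pool.Agent.P.MP_50039c_nt.LV

open MvPolynomial Module Pool.Agent.P.MP_6f117a_ag PJ
open scoped IntermediateField

universe u

theorem p_TOW (L : Type u) [Field L] [IsAlgClosed L] [CharZero L]
    (hFFW : S_FFW L) (hSTEPR : S_STEPR L) (hSTEPW : S_STEPW L) :
    S_TOW L := by
  intro K _ _ hK N
  induction N with
  | zero => exact ⟨K, _, _, inferInstance, inferInstance, inferInstance, Nat.zero_le _, hK⟩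
  | succ N ih =>
    obtain ⟨K₁, _, _, _, _, f1, n1, h1⟩ := ih
    have := hFFW K₁ h1
    obtain ⟨K₂, _, _, _, _, f2, n2, h2⟩ : ∃ (K' : Type u) (_ : Field K') (_ : Algebra L K')
        (_ : Algebra K₁ K') (_ : IsScalarTower L K₁ K'),
          FiniteDimensional K₁ K' ∧ 2 ≤ finrank K₁ K' ∧ (Ratl L K' ∨ Wei L K') := by
      have r := fun h => (hSTEPR K₁ h)
      rcases h1.elim .inl (hSTEPW K₁) with h | ⟨K', _, _, _, _, a, b, c⟩
      · obtain ⟨K', _, _, _, _, a, b, c⟩ := r h
        exact ⟨K', _, _, _, inferInstance, a, b, .inl c⟩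
      · exact ⟨K', _, _, _, inferInstance, a, b, .inr c⟩
    let _ : Algebra K K₂ := ((algebraMap K₁ K₂).comp (algebraMap K K₁)).toAlgebra
    have : IsScalarTower K K₁ K₂ := .of_algebraMap_eq fun _ => rfl
    have h3 := finrank_mul_finrank K K₁ K₂
    have h4 : 0 < finrank K K₁ := finrank_pos
    refine ⟨K₂, _, _, _, .of_algebraMap_eq fun c => ?_, .trans K K₁ K₂, by nlinarith, h2⟩
    rw [IsScalarTower.algebraMap_apply L K₁ K₂, IsScalarTower.algebraMap_apply L K K₁]
    rfl

end Pool.Agent.P.MP_50039c_nt.LV
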