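import Pool.Agent.P.MP_50039c_nt.LV.IfaceA

/-! Step TWO. -/

set_option autoImplicit false
set_option linter.unusedSectionVars false

namespace Pool.Agent.P.MP_50039c_nt.LV

open Module

universe u

namespace TWOx

theorem side {L : Type u} [Field L] (hTA : S_TA L) {K : Type u} [Field K] [Algebra L K]
    {P : Loc L K} {A B u v : Fin 3 → K} (H : Half P A) (H' : Half P B)
    (h : ∀ j, Tor (u j) (v j) (A j) (B j) ∧ P.PM (u j) ∧ P.PM (v j))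
    (hk : ∀ j, H.k = some j → H'.k ≠ some j) : ∃ p ∈ P.O,
    ((p = H.s ∧ H.w = 1) ∨ (H.w = H.s ∧ ∃ C, P.Un C ∧ p ^ 2 = H.s * C ∧
      ∃ β ∈ P.O, ∀ D : Derivation L K K, D C = β * D H'.s)) ∧
    ∀ Z, P.Sq Z → p ∈ Z → H.s ∈ Z ∧ ∀ j, H.k = some j → P.In Z (u j) ∧ P.In Z (v j) := by
  rcases e : H.k with _ | j
  · exact ⟨H.s, P.le _ H.s_mem, .inl ⟨rfl, by simp [Half.w, e]⟩,
      fun Z _ hp => ⟨hp, fun j hj => by simp at hj⟩⟩
  obtain ⟨p, hp, h1, h2⟩ := hTA K P _ _ _ _ H.s (h j).1 (h j).2.1 (h j).2.2 H.s_mem H.s_ne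
    (H.spec j e) (H'.un j (hk j e))
  refine ⟨p, P.le _ hp, .inr ⟨by simp [Half.w, e], _, H'.un j (hk j e), h1, H'.der j (hk j e)⟩,
    fun Z hZ hp => ⟨hZ.cancel_m H.s_mem (H'.un j (hk j e)) (h1 ▸ pow_mem hp 2), fun i hi => ?_⟩⟩
  obtain rfl : j = i := Option.some.inj hi
  exact h2 Z hZ hp

theorem swap {K : Type u} [Field K] {u v A B : K} (h : Tor u v A B) : Tor u v⁻¹ B A := by
  obtain ⟨hu, hv, h1, h2⟩ := h
  refine ⟨hu, inv_ne_zero hv, ?_, ?_⟩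
  · rw [h2, mul_comm v, mul_inv_cancel_right₀ hv]
  · rw [← h1, mul_comm u, inv_mul_cancel_left₀ hv]

end TWOx

theorem p_TWO (L : Type u) [Field L] [IsAlgClosed L] [CharZero L]
    (hTN : S_TN L) (hTA : S_TA L) (hTAB : S_TAB L) (hTMIX : S_TMIX L) :
    S_TWO L := by
  intro K _ _ P A B u v H H' h
  have hn : ∀ Z, P.Sq Z → H.s ∈ Z → H'.s ∈ Z → ∀ j, H.k ≠ some j → H'.k ≠ some j →
      P.In Z (u j) ∧ P.In Z (v j) := fun Z hZ a b j c d =>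
    hTN K P _ _ _ _ (h j).1 (h j).2.1 (h j).2.2 (H.un j c) (H'.un j d) Z hZ (H.mem Z hZ a j c)
      (H'.mem Z hZ b j d)
  by_cases hk : ∃ j, H.k = some j ∧ H'.k = some j
  · obtain ⟨j, e, e'⟩ := hk
    obtain ⟨p, hp, q, hq, κ, h1, h2, h3⟩ := hTAB K P _ _ _ _ H.s H'.s (h j).1 (h j).2.1 (h j).2.2
      H.s_mem H.s_ne H'.s_mem H'.s_ne (H.spec j e) (H'.spec j e')
    refine ⟨p, hp, q, hq, κ, fun Z hZ a b => ?_, h2, by simpa [Half.w, e, e'] using h3⟩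
    obtain ⟨c, d, f⟩ := h1 Z hZ a b
    refine ⟨c, d, fun i => ?_⟩
    rcases eq_or_ne j i with rfl | hi
    · exact f
    · exact hn Z hZ c d i (by simpa [e] using hi) (by simpa [e'] using hi)
  obtain ⟨p, hp, h1, h2⟩ := TWOx.side hTA H H' h fun j a b => hk ⟨j, a, b⟩
  obtain ⟨q, hq, h3, h4⟩ := TWOx.side hTA (v := fun j => (v j)⁻¹) H' H
    (fun j => ⟨TWOx.swap (h j).1, (h j).2.1, (h j).2.2.inv⟩) fun j a b => hk ⟨j, b, a⟩
  obtain ⟨κ, h5, h6⟩ := hTMIX K P H.s H'.s p q H.w H'.w H.s_mem H.s_ne H'.s_mem H'.s_ne h1 h3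
  refine ⟨p, hp, q, hq, κ, fun Z hZ a b => ?_, h5, h6⟩
  obtain ⟨c, c'⟩ := h2 Z hZ a
  obtain ⟨d, d'⟩ := h4 Z hZ b
  refine ⟨c, d, fun i => ?_⟩
  by_cases e : H.k = some i
  · exact c' i e
  by_cases e' : H'.k = some i
  · exact ⟨(d' i e').1, by simpa using (d' i e').2.inv⟩
  · exact hn Z hZ c d i e e'

end Pool.Agent.P.MP_50039c_nt.LV
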