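import Pool.Agent.P.MP_50039c_nt.LV.IfaceB

/-! Step UNR. -/

set_option autoImplicit false
set_option linter.unusedSectionVars false

namespace Pool.Agent.P.MP_50039c_nt.LV

open MvPolynomial Module Pool.Agent.P.MP_6f117a_ag PJ
open scoped IntermediateField

universe u

open WithZero in
theorem p_UNR (L : Type u) [Field L] [IsAlgClosed L] [CharZero L] :
    S_UNR L := by
  intro K K' _ _ _ _ _ _ _ _ hP ⟨δ, hδ, hκ⟩
  have inj : Function.Injective (algebraMap K K') := (algebraMap K K').injective
  obtain ⟨t, ht, h0⟩ := exists_trans hδ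
  have ht' : Transcendental L (algebraMap K K' t) :=
    fun h => ht ((isAlgebraic_algebraMap_iff inj).1 h)
  obtain ⟨D, -, D2, D3⟩ := exists_dt ht
  obtain ⟨D', D1', -, -⟩ := exists_dt ht'
  have ext : ∀ x : K, D' (algebraMap K K' x) = algebraMap K K' (D x) := fun x => by
    have := congrArg (D'.compAlgebraMap K).liftKaehlerDifferential (D2 x)
    rw [map_smul, Derivation.liftKaehlerDifferential_comp_D,
      Derivation.liftKaehlerDifferential_comp_D] at this
    refine this.trans ?_
    change D x • D' (algebraMap K K' t) = _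
    rw [D1', Algebra.smul_def, mul_one]
  have ext2 : ∀ x : K, (algebraMap K K' (δ t) • D') (algebraMap K K' x) =
      algebraMap K K' (δ x) := fun x => by
    rw [Derivation.smul_apply, ext, smul_eq_mul, D3 δ x, map_mul, mul_comm]
  have hne : algebraMap K K' (δ t) • D' ≠ 0 := fun e => by
    have := ext2 t
    rw [e] at this
    exact h0 (inj (by rw [← this, map_zero]; rfl))
  refine ⟨_, hne, fun P => ?_⟩
  obtain ⟨Q, hQ⟩ := hP P
  have hs : P.v (algebraMap K K' Q.π) = exp (-1) := by rw [← hQ, Q.v_π]
  have hs0 : algebraMap K K' Q.π ≠ 0 := fun e => Q.π_ne (inj (by rw [e, map_zero]))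
  have hs1 : P.v (algebraMap K K' Q.π) ≠ 1 := by
    rw [hs, ← exp_zero]
    exact fun e => by have := exp_injective e; omega
  have h := P.v_der_eq hne hs0 hs1
  rw [hs, ← exp_add, neg_add_cancel, exp_zero, one_mul, ext2, ← hQ] at h
  have := hκ Q
  rw [Place.κ] at this ⊢
  rwa [← h]

end Pool.Agent.P.MP_50039c_nt.LV
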