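import Pool.Agent.P.MP_50039c_nt.LV.IfaceB

/-! Step UNR0. -/

set_option autoImplicit false
set_option linter.unusedSectionVars false

namespace Pool.Agent.P.MP_50039c_nt.LV

open MvPolynomial Module Pool.Agent.P.MP_6f117a_ag PJ
open scoped IntermediateField

universe u

namespace UNR0x

theorem lin {K K' : Type u} [Field K] [Field K'] [Algebra K K'] (m : K') (T : K)
    (hm : m ^ 2 = algebraMap K K' T) (ht : K⟮m⟯ = ⊤) (z : K') :
    ∃ p q : K, z = algebraMap K K' p + algebraMap K K' q * m := by
  have hi : IsIntegral K m := by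
    refine IsIntegral.of_pow (n := 2) (by norm_num) ?_
    rw [hm]; exact isIntegral_algebraMap
  have hz : z ∈ Algebra.adjoin K {m} := by
    rw [← IntermediateField.adjoin_simple_toSubalgebra_of_isAlgebraic hi.isAlgebraic, ht]
    trivial
  induction hz using Algebra.adjoin_induction with
  | mem x hx => exact ⟨0, 1, by rw [Set.mem_singleton_iff.1 hx]; simp⟩
  | algebraMap r => exact ⟨r, 0, by simp⟩
  | add x y _ _ hx hy =>
    obtain ⟨p, q, rfl⟩ := hx
    obtain ⟨p', q', rfl⟩ := hy
    exact ⟨p + p', q + q', by simp only [map_add]; ring⟩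
  | mul x y _ _ hx hy =>
    obtain ⟨p, q, rfl⟩ := hx
    obtain ⟨p', q', rfl⟩ := hy
    refine ⟨p * p' + q * q' * T, p * q' + q * p', ?_⟩
    simp only [map_add, map_mul, ← hm]; ring

end UNR0x

theorem p_UNR0 (L : Type u) [Field L] [IsAlgClosed L] [CharZero L] :
    S_UNR0 L := by
  intro K K' _ _ _ _ _ _ m T hm ht P ⟨c, hc⟩
  have key : ∀ z : K', ∃ x : K, P.v (algebraMap K K' x) = P.v z := by
    intro z
    obtain ⟨p, q, rfl⟩ := UNR0x.lin m T hm ht z
    have hq : P.v (algebraMap K K' (q * c)) = P.v (algebraMap K K' q * m) := by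
      simp only [map_mul, hc]
    rcases lt_trichotomy (P.v (algebraMap K K' p)) (P.v (algebraMap K K' q * m)) with h | h | h
    · exact ⟨q * c, by rw [hq, P.v.map_add_eq_of_lt_right h]⟩
    · by_cases hp : p = 0
      · exact ⟨q * c, by rw [hq, hp, map_zero, zero_add]⟩
      have h2 : P.v (2 : K') = 1 := by
        have := P.v_const (c := (2 : L)) two_ne_zero
        rwa [map_ofNat] at this
      have hle : P.v (algebraMap K K' p + algebraMap K K' q * m) ≤ P.v (algebraMap K K' p) :=
        P.v.map_add_le le_rfl h.ge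
      rcases hle.lt_or_eq with hlt | heq
      · have e : algebraMap K K' p - algebraMap K K' q * m =
            2 * algebraMap K K' p - (algebraMap K K' p + algebraMap K K' q * m) := by ring
        have h3 : P.v (2 * algebraMap K K' p) = P.v (algebraMap K K' p) := by
          rw [map_mul, h2, one_mul]
        have h4 : P.v (algebraMap K K' p - algebraMap K K' q * m) = P.v (algebraMap K K' p) := by
          rw [e, P.v.map_sub_eq_of_lt_left (h3 ▸ hlt), h3]
        have hp' : P.v (algebraMap K K' p) ≠ 0 := by simpa using hp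
        refine ⟨(p ^ 2 - q ^ 2 * T) / p, ?_⟩
        have e2 : algebraMap K K' (p ^ 2 - q ^ 2 * T) =
            (algebraMap K K' p + algebraMap K K' q * m) *
              (algebraMap K K' p - algebraMap K K' q * m) := by
          simp only [map_sub, map_mul, map_pow, ← hm]; ring
        rw [map_div₀, map_div₀, e2, map_mul, h4, mul_div_assoc, div_self hp', mul_one]
      · exact ⟨p, heq.symm⟩
    · exact ⟨p, by rw [P.v.map_add_eq_of_lt_left h]⟩
  refine ⟨⟨P.v.comap (algebraMap K K'), fun g => ?_, fun a => ?_⟩, fun x => rfl⟩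
  · obtain ⟨z, rfl⟩ := P.surj g
    exact key z
  · rw [Valuation.comap_apply, ← IsScalarTower.algebraMap_apply]
    exact P.triv a

end Pool.Agent.P.MP_50039c_nt.LV
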