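import Pool.Agent.P.MP_50039c_nt.LV.IfaceB

/-! Step WEI. -/

set_option autoImplicit false
set_option linter.unusedSectionVars false

namespace Pool.Agent.P.MP_50039c_nt.LV

open MvPolynomial Module Pool.Agent.P.MP_6f117a_ag PJ
open scoped IntermediateField

universe u

namespace WEIx

open WithZero

variable {L K : Type u} [Field L] [Field K] [Algebra L K]

theorem rank_le (x y : K) (w : L⟮x⟯) (h : y ^ 2 = (w : K)) (ht : L⟮x, y⟯ = ⊤) :
    finrank L⟮x⟯ K ≤ 2 := by
  have h1 : L⟮x⟯⟮y⟯ = ⊤ := by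
    apply IntermediateField.restrictScalars_injective L
    rw [IntermediateField.adjoin_simple_adjoin_simple, ht]; rfl
  have hm : (Polynomial.X ^ 2 - Polynomial.C w : Polynomial L⟮x⟯).Monic :=
    Polynomial.monic_X_pow_sub_C w two_ne_zero
  have h0 : Polynomial.aeval y (Polynomial.X ^ 2 - Polynomial.C w : Polynomial L⟮x⟯) = 0 := by
    simp [h]
  have hi : IsIntegral L⟮x⟯ y := ⟨_, hm, h0⟩
  have h2 := IntermediateField.adjoin.finrank hi
  rw [h1, IntermediateField.finrank_top'] at h2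
  rw [h2]
  exact (Polynomial.natDegree_le_of_dvd (minpoly.dvd _ _ h0) hm.ne_zero).trans
    Polynomial.natDegree_X_pow_sub_C.le

theorem log_pos' {v : ℤᵐ⁰} (h : 1 < v) : 0 < log v := by
  have h0 : v ≠ 0 := (zero_lt_one.trans h).ne'
  rwa [← exp_log h0, ← exp_zero, exp_lt_exp] at h

theorem log_neg' {v : ℤᵐ⁰} (h0 : v ≠ 0) (h : v < 1) : log v < 0 := by
  rwa [← exp_log h0, ← exp_zero, exp_lt_exp] at h

theorem log_nonpos' {v : ℤᵐ⁰} (h0 : v ≠ 0) (h : v ≤ 1) : log v ≤ 0 := by
  rwa [← exp_log h0, ← exp_zero, exp_le_exp] at h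

variable [IsAlgClosed L] [CharZero L] [FF L K]

theorem pole_le {t : K} (ht : Transcendental L t) (h2 : finrank L⟮t⟯ K ≤ 2) (P : Place L K)
    (hP : 1 < P.v t) :
    log (P.v t) ≤ 2 ∧ (log (P.v t) = 2 → ∀ Q : Place L K, 1 < Q.v t → Q = P) := by
  classical
  obtain ⟨Z, h3, h4⟩ := exists_poles ht
  have h5 : ∀ Q ∈ Z, 0 ≤ log (Q.v t) := fun Q hQ => (log_pos' ((h3 Q).1 hQ)).le
  refine ⟨?_, fun e Q hQ => by_contra fun hne => ?_⟩
  · have := Finset.single_le_sum h5 ((h3 P).2 hP)
    omega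
  · have h6 := Finset.sum_le_sum_of_subset_of_nonneg (s := {Q, P}) (t := Z)
      (f := fun R : Place L K => log (R.v t)) (fun R hR => by
        rcases Finset.mem_insert.1 hR with rfl | hR
        · exact (h3 _).2 hQ
        · rw [Finset.mem_singleton.1 hR]; exact (h3 _).2 hP) (fun R hR _ => h5 R hR)
    rw [Finset.sum_pair hne] at h6
    have := log_pos' hQ
    omega

theorem v_sub_const (P : Place L K) {t : K} (h : 1 < P.v t) (c : L) :
    P.v (t - algebraMap L K c) = P.v t :=
  P.v.map_sub_eq_of_lt_left ((P.triv c).trans_lt h)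

end WEIx

open WithZero WEIx in
theorem p_WEI (L : Type u) [Field L] [IsAlgClosed L] [CharZero L]
    (hRAT : S_RAT L) :
    S_WEI L := by
  rintro K _ _ _ ⟨x, y, a, b, hx, hy, -, -, ht⟩
  by_cases hR : Ratl L K
  · exact hRAT K hR
  have hxm : x ∈ L⟮x⟯ := IntermediateField.mem_adjoin_simple_self L x
  have h2 : finrank L⟮x⟯ K ≤ 2 := rank_le x y ⟨_, mul_mem hxm (add_mem (add_mem (pow_mem hxm 2)
    (mul_mem (IntermediateField.algebraMap_mem _ a) hxm)) (IntermediateField.algebraMap_mem _ b))⟩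
    hy ht
  have y0 : y ≠ 0 := by
    intro e
    have h := aeval_ne hx (p := Polynomial.X * (Polynomial.X ^ 2 + Polynomial.C a * Polynomial.X +
      Polynomial.C b)) (mul_ne_zero Polynomial.X_ne_zero (Polynomial.Monic.ne_zero (by
        monicity!)))
    apply h
    simpa [e] using hy.symm
  have vy : ∀ P : Place L K, P.v y ≠ 0 := fun P => by simpa using y0
  have hinf : ∀ P : Place L K, 1 < P.v x → log (P.v x) = 2 ∧ log (P.v y) = 3 := fun P hP => by
    have h0 : P.v x ≠ 0 := (zero_lt_one.trans hP).ne'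
    have e1 : P.v (x + algebraMap L K a) = P.v x :=
      P.v.map_add_eq_of_lt_left ((P.triv a).trans_lt hP)
    have e2 : P.v (x * (x + algebraMap L K a) + algebraMap L K b) = P.v x * P.v x := by
      rw [P.v.map_add_eq_of_lt_left, map_mul, e1]
      rw [map_mul, e1]
      exact (P.triv b).trans_lt (one_lt_mul'' hP hP)
    have e3 : P.v y * P.v y = P.v x * (P.v x * P.v x) := by
      rw [← e2, ← map_mul, ← map_mul, ← sq, hy]; congr 1; ring
    have e4 := congrArg log e3
    rw [log_mul (vy P) (vy P), log_mul h0 (mul_ne_zero h0 h0), log_mul h0 h0] at e4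
    have := (pole_le hx h2 P hP).1
    have := log_pos' hP
    omega
  have hfin : ∀ P : Place L K, P.v x ≤ 1 → P.v y ≤ 1 := fun P hP => by
    have h : P.v (y ^ 2) ≤ 1 := by
      rw [hy, map_mul]
      refine mul_le_one' hP (P.v.map_add_le (P.v.map_add_le ?_ ?_) (P.triv b))
      · rw [map_pow]; exact pow_le_one₀ zero_le hP
      · rw [map_mul]; exact mul_le_one' (P.triv a) hP
    rw [map_pow] at h
    exact (pow_le_one_iff two_ne_zero).1 h
  obtain ⟨D, hD, -⟩ := exists_dt hx
  have D0 : D ≠ 0 := by rintro rfl; simp at hD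
  refine ⟨y • D, fun e => ?_, fun P => ?_⟩
  · have := congrArg (fun δ : Derivation L K K => δ x) e
    simp [hD, y0] at this
  rw [κ_smul D0 y0]
  rcases lt_or_ge 1 (P.v x) with hP | hP
  · rw [P.κ_eq hD (trans_ne hx) hP.ne']
    have := hinf P hP
    omega
  obtain ⟨c, hc⟩ := P.res hP
  have t0 := trans_ne (trans_sub hx c)
  have vt : ∀ Q : Place L K, Q.v (x - algebraMap L K c) ≠ 0 := fun Q => by simpa using t0
  have inv : ∀ Q : Place L K, Q.v (x - algebraMap L K c) < 1 →
      1 < Q.v (x - algebraMap L K c)⁻¹ := fun Q h => by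
    rw [map_inv₀]; exact (one_lt_inv₀ (zero_lt_iff.2 (vt Q))).2 h
  obtain ⟨h3, h4⟩ := pole_le (trans_inv (trans_sub hx c)) (by rwa [adjoin_inv, adjoin_sub]) P
    (inv P hc)
  rw [map_inv₀, log_inv] at h3 h4
  rw [P.κ_eq (s := x - algebraMap L K c) (by simpa using hD) t0 hc.ne]
  have h5 := log_neg' (vt P) hc
  rcases (hfin P hP).eq_or_lt with h6 | h6
  swap
  · have := log_neg' (vy P) h6
    omega
  rw [h6, log_one]
  by_contra hne
  have h7 := h4 (by omega)
  obtain ⟨d, hd⟩ := P.res (hfin P hP)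
  have d0 : d ≠ 0 := by rintro rfl; simp [h6] at hd
  have hg : ∀ Q : Place L K, Q.v x ≤ 1 → Q.v (x ^ 2 + algebraMap L K (c + a) * x +
      algebraMap L K (c ^ 2 + a * c + b)) ≤ 1 := fun Q hQ => by
    refine Q.v.map_add_le (Q.v.map_add_le ?_ ?_) (Q.triv _)
    · rw [map_pow]; exact pow_le_one₀ zero_le hQ
    · rw [map_mul]; exact mul_le_one' (Q.triv _) hQ
  have h8 : P.v (y + algebraMap L K d) = 1 := by
    have e : y + algebraMap L K d = algebraMap L K (2 * d) + (y - algebraMap L K d) := by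
      rw [map_mul, map_ofNat]; ring
    have e2 := P.v_const (mul_ne_zero two_ne_zero d0)
    rw [e, P.v.map_add_eq_of_lt_left (by rwa [e2]), e2]
  have e0 : (y - algebraMap L K d) * (y + algebraMap L K d) - (x - algebraMap L K c) *
      (x ^ 2 + algebraMap L K (c + a) * x + algebraMap L K (c ^ 2 + a * c + b)) =
      algebraMap L K (c * (c ^ 2 + a * c + b) - d ^ 2) := by
    simp only [map_add, map_mul, map_pow, map_sub]
    linear_combination hy
  have e1 : c * (c ^ 2 + a * c + b) - d ^ 2 = 0 := by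
    by_contra h
    have h9 := P.v_const (K := K) h
    rw [← e0] at h9
    refine (P.v.map_sub_lt ?_ ?_).ne h9
    · rw [map_mul, h8, mul_one]; exact hd
    · rw [map_mul]
      exact mul_lt_one_of_nonneg_of_lt_one_left zero_le hc (hg P hP)
  rw [e1, map_zero, sub_eq_zero] at e0
  obtain ⟨Z, hZ, hs⟩ := exists_poles hx
  have := FF.fin (L := L) x hx
  obtain ⟨R, hR'⟩ : Z.Nonempty := by
    rw [Finset.nonempty_iff_ne_empty]
    rintro rfl
    have : 0 < finrank L⟮x⟯ K := finrank_pos
    simp only [Finset.sum_empty] at hs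
    omega
  have hRx := (hZ R).1 hR'
  have hψ : log (R.v ((y - algebraMap L K d) / (x - algebraMap L K c))) = 1 := by
    have h9 := hinf R hRx
    have h10 : 1 < R.v y := by
      rw [← exp_log (vy R), ← exp_zero, exp_lt_exp]; omega
    rw [map_div₀, v_sub_const R hRx, v_sub_const R h10,
      log_div (vy R) (zero_lt_one.trans hRx).ne']
    omega
  have hp : ∀ Q : Place L K, 1 < Q.v ((y - algebraMap L K d) / (x - algebraMap L K c)) →
      Q = R := fun Q hQ => by
    refine (pole_le hx h2 R hRx).2 (hinf R hRx).1 Q (by_contra fun h => hQ.not_ge ?_)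
    have hQx : Q.v x ≤ 1 := not_lt.1 h
    rw [map_div₀, div_le_one₀ (zero_lt_iff.2 (vt Q))]
    rcases (Q.v.map_sub_le hQx (Q.triv c)).eq_or_lt with h9 | h9
    · rw [h9]; exact Q.v.map_sub_le (hfin Q hQx) (Q.triv d)
    · obtain rfl := h7 Q (inv Q h9)
      have h10 := congrArg Q.v e0
      rw [map_mul, map_mul, h8, mul_one] at h10
      rw [h10]
      exact mul_le_of_le_one_right' (hg Q hP)
  have ψ0 : (y - algebraMap L K d) / (x - algebraMap L K c) ≠ 0 := by
    intro e; rw [e] at hψ; simp at hψ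
  have ψ1 : 1 < R.v ((y - algebraMap L K d) / (x - algebraMap L K c)) := by
    rw [← exp_log ((map_ne_zero R.v).2 ψ0), ← exp_zero, exp_lt_exp]; omega
  have hψt := R.trans ψ0 ψ1.ne'
  obtain ⟨Z', hZ', hs'⟩ := exists_poles hψt
  have e2 : Z' = {R} := Finset.ext fun Q => by
    rw [hZ', Finset.mem_singleton]
    exact ⟨hp Q, fun e => e ▸ ψ1⟩
  rw [e2, Finset.sum_singleton, hψ] at hs'
  exact hR ⟨_, hψt, IntermediateField.finrank_eq_one_iff_eq_top.1 (by omega)⟩

end Pool.Agent.P.MP_50039c_nt.LV
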