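import Pool.Agent.P.MP_50039c_nt.LV.Main
import Pool.Agent.P.MP_50039c_nt.LV.TONEA
import Pool.Agent.P.MP_50039c_nt.LV.TONEB
import Pool.Agent.P.MP_50039c_nt.LV.TONEI
import Pool.Agent.P.MP_50039c_nt.LV.TTN
import Pool.Agent.P.MP_50039c_nt.LV.TTA
import Pool.Agent.P.MP_50039c_nt.LV.TTAB
import Pool.Agent.P.MP_50039c_nt.LV.TTMIX
import Pool.Agent.P.MP_50039c_nt.LV.TTWO
import Pool.Agent.P.MP_50039c_nt.LV.TCUB
import Pool.Agent.P.MP_50039c_nt.LV.TTB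
import Pool.Agent.P.MP_50039c_nt.LV.TMIN
import Pool.Agent.P.MP_50039c_nt.LV.TLIN
import Pool.Agent.P.MP_50039c_nt.LV.TEVEN
import Pool.Agent.P.MP_50039c_nt.LV.TRING
import Pool.Agent.P.MP_50039c_nt.LV.TLOC
import Pool.Agent.P.MP_50039c_nt.LV.TMUL
import Pool.Agent.P.MP_50039c_nt.LV.TGT
import Pool.Agent.P.MP_50039c_nt.LV.THYP
import Pool.Agent.P.MP_50039c_nt.LV.TPLANE
import Pool.Agent.P.MP_50039c_nt.LV.TDEG
import Pool.Agent.P.MP_50039c_nt.LV.TG1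
import Pool.Agent.P.MP_50039c_nt.LV.TRAT
import Pool.Agent.P.MP_50039c_nt.LV.TWEI
import Pool.Agent.P.MP_50039c_nt.LV.TNORM
import Pool.Agent.P.MP_50039c_nt.LV.TFFW
import Pool.Agent.P.MP_50039c_nt.LV.TFFX
import Pool.Agent.P.MP_50039c_nt.LV.TSTEPR
import Pool.Agent.P.MP_50039c_nt.LV.TSTEPW
import Pool.Agent.P.MP_50039c_nt.LV.TTOW
import Pool.Agent.P.MP_50039c_nt.LV.TUNR0
import Pool.Agent.P.MP_50039c_nt.LV.TUNR
import Pool.Agent.P.MP_50039c_nt.LV.TTERN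
import Pool.Agent.P.MP_50039c_nt.LV.TDEGL

/-! All steps together. -/

set_option autoImplicit false

namespace Pool.Agent.P.MP_50039c_nt.LV

open MvPolynomial
open scoped IntermediateField

universe u

variable (L : Type u) [Field L] [IsAlgClosed L] [CharZero L]

theorem all_GT : S_GT L :=
  p_GT L (p_MUL L (p_LOC L (p_RING L) (p_LIN L (p_MIN L)))) (p_ONEA L) (p_ONEB L) (p_ONEI L)
    (p_TWO L (p_TN L) (p_TA L) (p_TAB L) (p_TMIX L))

theorem all_DEG : S_DEG L := p_DEG L (p_PLANE L (p_HYP L)) (p_CUB L) (p_TB L) (all_GT L)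

theorem main : ∃ (G : MvPolynomial (Fin 3) L) (e : ℕ), G ≠ 0 ∧ G.IsHomogeneous e ∧
    ∀ (K : Type u) [Field K] [Algebra L K] (s w : K) (A B : L), Transcendental L s →
      w ^ 2 = s ^ 3 + algebraMap L K A * s + algebraMap L K B → L⟮s, w⟯ = ⊤ →
        ∀ (y : Fin 3 → K) (T : K), QQ (y 0 ^ 2) (y 1 ^ 2) (y 2 ^ 2) T = 0 →
          (∃ (l : Fin 3 → L) (g : K), ∀ i, y i = l i • g) ∨ aeval y G = 0 := by
  obtain ⟨G, e, h1, h2, h3⟩ := main_of L (all_DEG L) (p_G1 L) (p_RAT L) (p_WEI L (p_RAT L))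
    (p_FFW L) (p_FFX L) (p_TOW L (p_FFW L) (p_STEPR L) (p_STEPW L)) (p_UNR0 L) (p_UNR L)
    (p_TERN L) (p_DEGL L) (p_EVEN L)
  refine ⟨G, e, h1, h2, fun K _ _ s w A B hs hw ht y T hQ => or_iff_not_imp_left.2 fun h =>
    h3 K (p_NORM L K s w A B hs hw ht) y T hQ (by_contra fun hc => h ?_)⟩
  by_cases h0 : ∃ i, y i ≠ 0
  · obtain ⟨i, hi⟩ := h0
    choose c hc' using fun j => (MP_6f117a_ag.const_or_trans (L := L) (y j / y i)).resolve_right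
      fun ht => hc ⟨i, j, hi, ht⟩
    exact ⟨c, y i, fun j => by rw [Algebra.smul_def, hc', div_mul_cancel₀ _ hi]⟩
  · exact ⟨0, 0, fun i => by simpa using not_not.1 fun e => h0 ⟨i, e⟩⟩

end Pool.Agent.P.MP_50039c_nt.LV
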