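import Mathlib

/-! Local rings inside a function field, and the local data of the cuboid surface. -/

set_option autoImplicit false

namespace Pool.Agent.P.MP_50039c_nt.LV

universe u

/-- A local subring `O` of `K` with maximal ideal `m` and residue field `L`. -/
structure Loc (L K : Type u) [Field L] [Field K] [Algebra L K] where
  O : Subalgebra L K
  m : Submodule L K
  le : ∀ x ∈ m, x ∈ O
  mul : ∀ x ∈ O, ∀ y ∈ m, x * y ∈ m
  res : ∀ x ∈ O, ∃ c : L, x - algebraMap L K c ∈ m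
  one : (1 : K) ∉ m
  inv : ∀ x ∈ O, x ∉ m → x⁻¹ ∈ O

variable {L K : Type u} [Field L] [Field K] [Algebra L K]

namespace Loc

variable (P : Loc L K)

/-- Units of the local ring. -/
def Un (x : K) : Prop := x ∈ P.O ∧ x ∉ P.m

/-- `x` defines a map to the projective line near the point. -/
def PM (x : K) : Prop := x ∈ P.O ∨ x⁻¹ ∈ P.O

/-- `Z` contains the square of the maximal ideal. -/
def Sq (Z : Subalgebra L K) : Prop := ∀ x ∈ P.m, ∀ y ∈ P.m, x * y ∈ Z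

/-- `x` and its inverse lie in `Z` as far as they are regular. -/
def In (Z : Subalgebra L K) (x : K) : Prop := (x ∈ P.O → x ∈ Z) ∧ (x⁻¹ ∈ P.O → x⁻¹ ∈ Z)

variable {P} {x y : K} {Z : Subalgebra L K}

theorem mul' (hx : x ∈ P.m) (hy : y ∈ P.O) : x * y ∈ P.m := mul_comm y x ▸ P.mul y hy x hx

theorem Un.ne (h : P.Un x) : x ≠ 0 := fun e => h.2 (e ▸ P.m.zero_mem)

theorem Un.inv (h : P.Un x) : P.Un x⁻¹ := ⟨P.inv x h.1 h.2, fun h' => P.one (by
  simpa [h.ne] using P.mul x h.1 _ h')⟩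

theorem Un.cancel (hy : P.Un y) (h : x * y ∈ P.m) : x ∈ P.m := by
  simpa [hy.ne] using mul' h hy.inv.1

theorem Un.mul (hx : P.Un x) (hy : P.Un y) : P.Un (x * y) :=
  ⟨mul_mem hx.1 hy.1, fun h => hx.2 (hy.cancel h)⟩

theorem Un.div (hx : P.Un x) (hy : P.Un y) : P.Un (x / y) :=
  div_eq_mul_inv x y ▸ hx.mul hy.inv

theorem un_one : P.Un 1 := ⟨one_mem _, P.one⟩

theorem Un.pow (hx : P.Un x) (n : ℕ) : P.Un (x ^ n) := by
  induction n with
  | zero => simpa using un_one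
  | succ n ih => exact pow_succ x n ▸ ih.mul hx

theorem Un.neg (hx : P.Un x) : P.Un (-x) := ⟨neg_mem hx.1, fun h => hx.2 (neg_mem_iff.1 h)⟩

theorem un_const {c : L} (hc : c ≠ 0) : P.Un (algebraMap L K c) :=
  ⟨P.O.algebraMap_mem c, fun h => P.one (by
    simpa [hc] using P.mul _ (P.O.algebraMap_mem c⁻¹) _ h)⟩

theorem un_nat [CharZero L] {n : ℕ} (hn : n ≠ 0) : P.Un (n : K) := by
  simpa using un_const (P := P) (Nat.cast_ne_zero.2 hn)

theorem Un.add_m (hx : P.Un x) (hy : y ∈ P.m) : P.Un (x + y) :=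
  ⟨add_mem hx.1 (P.le y hy), fun h => hx.2 (by simpa using sub_mem h hy)⟩

theorem Un.sub_m (hx : P.Un x) (hy : y ∈ P.m) : P.Un (x - y) :=
  sub_eq_add_neg x y ▸ hx.add_m (neg_mem hy)

/-- An element with a non-zero residue is a unit. -/
theorem un_of_res {c : L} (hc : c ≠ 0) (h : x - algebraMap L K c ∈ P.m) : P.Un x := by
  simpa using (un_const (P := P) hc).add_m h

theorem div_mem (hx : x ∈ P.O) (hy : P.Un y) : x / y ∈ P.O :=
  div_eq_mul_inv x y ▸ mul_mem hx hy.inv.1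

theorem div_m (hx : x ∈ P.m) (hy : P.Un y) : x / y ∈ P.m :=
  div_eq_mul_inv x y ▸ mul' hx hy.inv.1

theorem not_inv (hx : x ∈ P.m) (h0 : x ≠ 0) : x⁻¹ ∉ P.O := fun h => P.one (by
  simpa [h0] using mul' hx h)

theorem inv_m (hx : x ∉ P.O) (h : x⁻¹ ∈ P.O) : x⁻¹ ∈ P.m :=
  by_contra fun h' => hx (by simpa using P.inv _ h h')

theorem PM.inv (h : P.PM x) : P.PM x⁻¹ := by
  rw [PM, inv_inv]; exact h.symm

theorem In.inv (h : P.In Z x) : P.In Z x⁻¹ := by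
  rw [In, inv_inv]; exact h.symm

theorem m_of_sq (h : P.PM x) (h2 : x ^ 2 ∈ P.m) : x ∈ P.m := by
  rcases eq_or_ne x 0 with rfl | h0
  · exact P.m.zero_mem
  by_cases hx : x ∈ P.O
  · exact by_contra fun h' => (Un.pow ⟨hx, h'⟩ 2).2 h2
  · exact absurd (inv_pow x 2 ▸ pow_mem (h.resolve_left hx) 2) (not_inv h2 (pow_ne_zero 2 h0))

theorem un_of_sq (h : P.PM x) (h2 : P.Un (x ^ 2)) : P.Un x := by
  have h0 : x ≠ 0 := fun e => h2.ne (by simp [e])
  by_cases hx : x ∈ P.O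
  · exact ⟨hx, fun h' => h2.2 (sq x ▸ P.mul x hx x h')⟩
  · have h3 := inv_m hx (h.resolve_left hx)
    exact absurd (by simpa [sq] using P.mul _ (P.le _ h3) _ h3) h2.inv.2

theorem Sq.cancel_m (hZ : P.Sq Z) (hx : x ∈ P.m) (hy : P.Un y) (h : x * y ∈ Z) : x ∈ Z := by
  obtain ⟨c, hc⟩ := P.res y hy.1
  have c0 : c ≠ 0 := fun e => hy.2 (by simpa [e] using hc)
  have := mul_mem (sub_mem h (hZ x hx _ hc)) (Z.algebraMap_mem c⁻¹)
  rwa [mul_sub, sub_sub_cancel, mul_assoc, ← map_mul, mul_inv_cancel₀ c0, map_one, mul_one] at this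

theorem Sq.cancel (hZ : P.Sq Z) (hx : x ∈ P.O) (hy : P.Un y) (hy' : y ∈ Z) (h : x * y ∈ Z) :
    x ∈ Z := by
  obtain ⟨c, hc⟩ := P.res x hx
  have := hZ.cancel_m hc hy (sub_mul x _ y ▸ sub_mem h (mul_mem (Z.algebraMap_mem c) hy'))
  simpa using add_mem this (Z.algebraMap_mem c)

theorem Sq.inv_mem (hZ : P.Sq Z) (hy : P.Un y) (hy' : y ∈ Z) : y⁻¹ ∈ Z :=
  hZ.cancel hy.inv.1 hy hy' (by simp [hy.ne])

theorem Sq.div_mem (hZ : P.Sq Z) (hx : x ∈ Z) (hy : P.Un y) (hy' : y ∈ Z) : x / y ∈ Z :=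
  div_eq_mul_inv x y ▸ mul_mem hx (hZ.inv_mem hy hy')

theorem Sq.of_sq [CharZero L] (hZ : P.Sq Z) (hx : P.Un x) (h : x ^ 2 ∈ Z) : x ∈ Z := by
  obtain ⟨c, hc⟩ := P.res x hx.1
  have c0 : c ≠ 0 := fun e => hx.2 (by simpa [e] using hc)
  have h1 := hZ.cancel_m hc (un_const (mul_ne_zero two_ne_zero c0)) (by
    convert sub_mem (sub_mem h (hZ _ hc _ hc)) (Z.algebraMap_mem (c ^ 2)) using 1
    simp only [map_mul, map_pow, map_ofNat]
    ring)
  simpa using add_mem h1 (Z.algebraMap_mem c)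

theorem Sq.in_un (hZ : P.Sq Z) (hx : P.Un x) (h : x ∈ Z) : P.In Z x :=
  ⟨fun _ => h, fun _ => hZ.inv_mem hx h⟩

theorem in_m (hx : x ∈ P.m) (h0 : x ≠ 0) (h : x ∈ Z) : P.In Z x :=
  ⟨fun _ => h, fun h' => absurd h' (not_inv hx h0)⟩

end Loc

/-- The determinant of the derivatives of two functions. -/
def jac (D E : Derivation L K K) (p q : K) : K := D p * E q - D q * E p

/-- The three functions of degree one whose divisors are the pairs of opposite vertices of the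
octahedron. -/
noncomputable def mob (i : L) (f : K) : Fin 3 → K :=
  ![f, (f - 1) / (f + 1), (f - algebraMap L K i) / (f + algebraMap L K i)]

/-- A local parameter `s` of the projective line adapted to three functions with disjoint
divisors. -/
structure Half (P : Loc L K) (A : Fin 3 → K) where
  k : Option (Fin 3)
  s : K
  s_mem : s ∈ P.m
  s_ne : s ≠ 0
  spec : ∀ j, k = some j → A j = s ∨ A j = s⁻¹
  un : ∀ j, k ≠ some j → P.Un (A j)
  mem : ∀ Z, P.Sq Z → s ∈ Z → ∀ j, k ≠ some j → A j ∈ Z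
  der : ∀ j, k ≠ some j → ∃ β ∈ P.O, ∀ D : Derivation L K K, D (A j) = β * D s

/-- The equation of the branch divisor. -/
def Half.w {P : Loc L K} {A : Fin 3 → K} (H : Half P A) : K := H.k.elim 1 fun _ => H.s

/-- The local description of the quadratic differentials on the projective line. -/
def One (P : Loc L K) (i : L) (f : K) : Prop :=
  ∃ (H : Half P (mob i f)) (lam : K), (∀ D : Derivation L K K, D f = lam * D H.s) ∧
    lam ^ 2 * H.w / (f * (f ^ 4 - 1)) ∈ P.O ∧ f * (lam ^ 2 * H.w / (f * (f ^ 4 - 1))) ∈ P.O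

/-- The equations of the toric surface. -/
def Tor (u v A B : K) : Prop := u ≠ 0 ∧ v ≠ 0 ∧ u * v = A ∧ u = v * B

/-- The third cuboid polynomial in terms of the squares. -/
def QQ {R : Type*} [CommRing R] (A B C T : R) : R :=
  ((T + A) ^ 2 * (T + B) ^ 2 - 4 * T * (A * (T + B) ^ 2 + B * (T + A) ^ 2)) * (T + C) ^ 2 +
    4 * C * T * (T + A) ^ 2 * (T + B) ^ 2

theorem QQ_eq {R : Type*} [CommRing R] (a b c T : R) : QQ (a ^ 2) (b ^ 2) (c ^ 2) T =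
    T ^ 6 + (6 * c ^ 2 - 2 * a ^ 2 - 2 * b ^ 2) * T ^ 5
    + (a ^ 4 + b ^ 4 + c ^ 4 + 4 * a ^ 2 * c ^ 2 + 4 * b ^ 2 * c ^ 2 - 12 * a ^ 2 * b ^ 2) * T ^ 4
    + (6 * a ^ 4 * c ^ 2 + 6 * b ^ 4 * c ^ 2 - 8 * a ^ 2 * b ^ 2 * c ^ 2 - 2 * a ^ 2 * c ^ 4
      - 2 * b ^ 2 * c ^ 4 - 2 * a ^ 4 * b ^ 2 - 2 * a ^ 2 * b ^ 4) * T ^ 3
    + (4 * a ^ 2 * b ^ 4 * c ^ 2 + 4 * a ^ 4 * b ^ 2 * c ^ 2 - 12 * a ^ 2 * b ^ 2 * c ^ 4
      + a ^ 4 * c ^ 4 + b ^ 4 * c ^ 4 + a ^ 4 * b ^ 4) * T ^ 2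
    + (6 * a ^ 4 * b ^ 4 * c ^ 2 - 2 * a ^ 4 * b ^ 2 * c ^ 4 - 2 * a ^ 2 * b ^ 4 * c ^ 4) * T
    + a ^ 4 * b ^ 4 * c ^ 4 := by
  rw [QQ]; ring

end Pool.Agent.P.MP_50039c_nt.LV
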