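import Pool.Agent.P.MP_440ce3_nt.LV.Fin

/-! Finiteness of the curves that are covered with large degree by curves of genus at most one. -/

set_option autoImplicit false

namespace Pool.Agent.P.MP_50039c_nt.LV

open MvPolynomial Pool.Agent.P.MP_6f117a_ag PJ Pool.Agent.P.MP_440ce3_nt.LV

universe u

variable {L : Type u} [Field L] {n : ℕ}

/-- The equations of the points of large degree over function fields of genus at most one. -/
def Cl (N : ℕ) (I : Ideal (MvPolynomial (Fin (n + 1)) L)) :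
    Set (MvPolynomial (Fin (n + 1)) L → Prop) :=
  {Φ | ∃ (K : Type u) (_ : Field K) (_ : Algebra L K) (_ : FF L K) (ξ : Fin (n + 1) → K),
    (∃ i j, ξ i ≠ 0 ∧ Transcendental L (ξ j / ξ i)) ∧ genus L K ≤ 1 ∧ (N : ℤ) < degree L ξ ∧
      I ≤ RingHom.ker (TGEN.ev L ξ) ∧ Φ = Form L ξ}

theorem mem_ker {K : Type u} [Field K] [Algebra L K] (ξ : Fin (n + 1) → K)
    {F : MvPolynomial (Fin (n + 1)) L} {e : ℕ} (hF : F.IsHomogeneous e) :
    F ∈ RingHom.ker (TGEN.ev L ξ) ↔ aeval ξ F = 0 := by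
  rw [RingHom.mem_ker, TGEN.ev_hom ξ hF, mul_eq_zero, Polynomial.C_eq_zero,
    or_iff_left (pow_ne_zero _ Polynomial.X_ne_zero)]

theorem hom_ker {K : Type u} [Field K] [Algebra L K] (ξ : Fin (n + 1) → K) :
    Hom (RingHom.ker (TGEN.ev L ξ)) := fun F hF e => by
  rw [mem_ker ξ (homogeneousComponent_isHomogeneous e F), ← TGEN.coeff_ev, RingHom.mem_ker.1 hF]
  simp

theorem fin_low [IsAlgClosed L] [CharZero L] (I₀ : Ideal (MvPolynomial (Fin (n + 1)) L))
    (h : ∀ (K : Type u) [Field K] [Algebra L K] (x : Fin (n + 1) → K), x ≠ 0 → rat L x = ⊤ →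
      (∀ F ∈ I₀, ∀ e, F.IsHomogeneous e → aeval x F = 0) →
        Algebra.trdeg L K ≤ 1 ∨ GenType L K) : ∃ N, (Cl N I₀).Finite := by
  suffices H : ∀ I, I₀ ≤ I → ∃ N, (Cl N I).Finite from H _ le_rfl
  intro I
  induction I using IsNoetherian.induction with
  | hgt I ih =>
    intro hI
    have key : ∀ G ∉ I, ∃ N, (Cl N (I ⊔ Ideal.span {G})).Finite := fun G hG =>
      ih _ (lt_of_le_of_ne le_sup_left fun e =>
        hG (e ▸ Ideal.mem_sup_right (Ideal.mem_span_singleton_self G))) (hI.trans le_sup_left)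
    have sub : ∀ {G} {P : Ideal (MvPolynomial (Fin (n + 1)) L)}, I ≤ P → G ∈ P →
        I ⊔ Ideal.span {G} ≤ P := fun h1 h2 =>
      sup_le h1 ((Ideal.span_singleton_le_iff_mem _).2 h2)
    by_cases ht : I = ⊤
    · refine ⟨0, Set.finite_empty.subset ?_⟩
      rintro _ ⟨K, _, _, _, ξ, -, -, -, h2, -⟩
      exact (RingHom.ker_isPrime (TGEN.ev L ξ)).ne_top (top_le_iff.1 (ht ▸ h2))
    by_cases hp : Ideal.IsPrime I
    · by_cases hh : TNOE.hull I = I
      · by_cases hX : ∃ i, X i ∉ I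
        · obtain ⟨K, _, _, x, x0, xr, hx⟩ := (t_GEN L (n + 1)).1 I hp
            (fun F hF e => hh ▸ Ideal.subset_span ⟨F, hF, e, rfl⟩) hX
          have on : ∀ {K' : Type u} [Field K'] [Algebra L K'] {ξ : Fin (n + 1) → K'},
              I ≤ RingHom.ker (TGEN.ev L ξ) → OnV L x ξ := fun h2 G ⟨⟨e, he⟩, h0⟩ =>
            (mem_ker _ he).1 (h2 ((hx G e he).1 h0))
          rcases h K x x0 xr (fun F hF' e he => (hx F e he).2 (hI hF')) with h1 | h1
          · refine ⟨0, (Set.finite_singleton (Form L x)).subset ?_⟩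
            rintro _ ⟨K', _, _, _, ξ, ⟨i, j, hi, hj⟩, -, -, h2, rfl⟩
            exact form_eq h1 (on h2) hi hj
          · obtain ⟨α, e, G, g1, g2, g3⟩ := lv_all L K n x x0 xr h1
            obtain ⟨N, hN⟩ := key G fun hG => g2 ((hx G e g1).2 hG)
            refine ⟨N + α, hN.subset ?_⟩
            rintro _ ⟨K', _, _, _, ξ, ⟨i, j, hi, hj⟩, h5, h6, h2, rfl⟩
            push_cast at h6
            refine ⟨K', _, _, inferInstance, ξ, ⟨i, j, hi, hj⟩, h5, by omega,
              sub h2 ((mem_ker _ g1).2 (by_contra fun h3 => ?_)), rfl⟩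
            have h4 := g3 K' ξ (fun e => hi (congrFun e i)) (on h2) h3
            have h7 : (α : ℤ) * genus L K' ≤ α * 1 :=
              mul_le_mul_of_nonneg_left (by exact_mod_cast h5) (Int.natCast_nonneg α)
            omega
        · refine ⟨0, Set.finite_empty.subset ?_⟩
          rintro _ ⟨K', _, _, _, ξ, ⟨i, j, hi, -⟩, -, -, h2, -⟩
          exact hi (by simpa using (mem_ker ξ (isHomogeneous_X L i)).1 (h2
            (by_contra fun h3 => hX ⟨i, h3⟩)))
      · obtain ⟨N, hN⟩ := ih (TNOE.hull I) (lt_of_le_of_ne (TNOE.le_hull I) (Ne.symm hh))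
          (hI.trans (TNOE.le_hull I))
        refine ⟨N, hN.subset ?_⟩
        rintro _ ⟨K', _, _, _, ξ, h1, h3, h4, h2, rfl⟩
        exact ⟨K', _, _, inferInstance, ξ, h1, h3, h4, TNOE.hull_le (hom_ker ξ) h2, rfl⟩
    · obtain ⟨a, ha, b, hb, hab⟩ := (Ideal.not_isPrime_iff.1 hp).resolve_left ht
      obtain ⟨N, hN⟩ := key a ha
      obtain ⟨M, hM⟩ := key b hb
      refine ⟨N + M, (hN.union hM).subset ?_⟩
      rintro _ ⟨K', _, _, _, ξ, h1, h3, h4, h2, rfl⟩
      push_cast at h4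
      exact ((RingHom.ker_isPrime (TGEN.ev L ξ)).mem_or_mem (h2 hab)).imp
        (fun h5 => ⟨K', _, _, inferInstance, ξ, h1, h3, by omega, sub h2 h5, rfl⟩)
        fun h5 => ⟨K', _, _, inferInstance, ξ, h1, h3, by omega, sub h2 h5, rfl⟩

end Pool.Agent.P.MP_50039c_nt.LV
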