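import Pool.Agent.P.MP_50039c_nt.LV.IfaceA
import Pool.Agent.P.MP_6f117a_ag.PJ.FIface

/-! The global steps. -/

set_option autoImplicit false

namespace Pool.Agent.P.MP_50039c_nt.LV

open MvPolynomial Module Pool.Agent.P.MP_6f117a_ag PJ
open scoped IntermediateField

universe u

variable {L : Type u} [Field L]

/-- Local coordinates `p` in which the given pluricanonical forms are regular. -/
def Chart {K : Type u} [Field K] [Algebra L K] {d : ℕ} (P : Loc L K)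
    (D : Fin d → Derivation L K K) (r : ℕ) (h₀ : K) (h : Fin d → K) (W : Set K) : Prop :=
  ∃ p : Fin d → K, (∀ j, p j ∈ P.O) ∧ (∀ Z, P.Sq Z → (∀ j, p j ∈ Z) → ∀ x ∈ W, x ∈ Z) ∧
    ∀ x, (x = h₀ ∨ ∃ i, x = h i) → ∃ b ∈ P.O, x = b * (Matrix.of fun i j => D i (p j)).det ^ r

variable (L)

/-- There is a vector field without poles. -/
def RegD (K : Type u) [Field K] [Algebra L K] : Prop :=
  ∃ δ : Derivation L K K, δ ≠ 0 ∧ ∀ P : Place L K, P.κ δ ≤ 0

/-- Rational function fields. -/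
def Ratl (K : Type u) [Field K] [Algebra L K] : Prop := ∃ s : K, Transcendental L s ∧ L⟮s⟯ = ⊤

/-- Function fields of smooth plane cubics. -/
def Wei (K : Type u) [Field K] [Algebra L K] : Prop := ∃ (x y : K) (a b : L),
  Transcendental L x ∧ y ^ 2 = x * (x ^ 2 + algebraMap L K a * x + algebraMap L K b) ∧ b ≠ 0 ∧
    a ^ 2 ≠ 4 * b ∧ L⟮x, y⟯ = ⊤

-- deps:
def S_RING : Prop := ∀ (K : Type u) [Field K] [Algebra L K] (M : ℕ) (z : Fin M → K)
  (a : Fin M → L), OnY L z a → ∃ (P : Loc L K) (lam : K → Fin M → L),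
    (∀ x, x ∈ P.O ↔ x ∈ locRing L z a) ∧ ∀ v : Fin M → L,
      (∀ G, Form L z G → (fun j => eval a (pderiv j G)) ⬝ᵥ v = 0) → ∃ Z : Subalgebra L K,
        P.Sq Z ∧ (∀ p ∈ P.O, lam p ⬝ᵥ v = 0 → p ∈ Z) ∧
          ∀ S T, a S ≠ 0 → v S = 0 → z T / z S ∈ Z → v T = 0

-- deps: RING LIN
def S_LOC : Prop := ∀ (K : Type u) [Field K] [Algebra L K] (d c M : ℕ) (z : Fin M → K),
  c + d + 1 = M → z ≠ 0 → rat L z = ⊤ → Algebra.trdeg L K = d →
  ∀ (D : Basis (Fin d) K (Derivation L K K)) (r : ℕ) (h₀ : K) (h : Fin d → K), 0 < r → h₀ ≠ 0 →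
    (AlgebraicIndependent L fun i => h i / h₀) →
    (∀ (P : Loc L K) (S : Fin M), z S ≠ 0 → (∀ T, z T / z S ∈ P.O) →
      Chart P D r h₀ h {x | ∃ T, x = z T / z S}) → GenType L K

-- deps: LOC
def S_MUL : Prop := ∀ (K : Type u) [Field K] [Algebra L K] (ι : Type) [Fintype ι] (w : ι → K)
  (d : ℕ), d ≤ Fintype.card ι → (∀ i, w i ≠ 0) → IntermediateField.adjoin L (Set.range w) = ⊤ →
  Algebra.trdeg L K = d →
  ∀ (D : Basis (Fin d) K (Derivation L K K)) (r : ℕ) (h₀ : K) (h : Fin d → K), 0 < r → h₀ ≠ 0 →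
    (AlgebraicIndependent L fun i => h i / h₀) →
    (∀ P : Loc L K, (∀ i, P.PM (w i)) →
      Chart P D r h₀ h {x | x ∈ P.O ∧ ∃ i, x = w i ∨ x = (w i)⁻¹}) → GenType L K

-- deps: MUL ONEA ONEB ONEI TWO
def S_GT : Prop := ∀ (K : Type u) [Field K] [Algebra L K] (i : L) (f g : K) (u v : Fin 3 → K),
  i ^ 2 = -1 → IsTranscendenceBasis L ![f, g] → (∀ j, Tor (u j) (v j) (mob i f j) (mob i g j)) →
    IntermediateField.adjoin L (Set.range u ∪ Set.range v) = ⊤ → GenType L K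

-- deps:
-- imports: Pool.Agent.P.MP_6f117a_ag.PJ.TTD
def S_HYP : Prop := ∀ (K : Type u) [Field K] [Algebra L K] (n e : ℕ) (y : Fin (n + 2) → K)
  (F : MvPolynomial (Fin (n + 2)) L), y ≠ 0 → rat L y = ⊤ → F.IsHomogeneous e → F ≠ 0 →
    aeval y F = 0 → Algebra.trdeg L K ≤ n

-- deps: HYP
def S_PLANE : Prop := ∀ (K : Type u) [Field K] [Algebra L K] (z : Fin 4 → K) (j k : Fin 4) (c : L)
  (F : MvPolynomial (Fin 4) L) (e : ℕ), j ≠ k → z ≠ 0 → rat L z = ⊤ →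
    z j = algebraMap L K c * z k → F.IsHomogeneous e → aeval z F = 0 →
      (∃ a : Fin 4 → L, a j = c * a k ∧ eval a F ≠ 0) → Algebra.trdeg L K ≤ 1

-- deps: PLANE CUB TB GT
def S_DEG : Prop := ∀ (K : Type u) [Field K] [Algebra L K] (z : Fin 4 → K), z ≠ 0 → rat L z = ⊤ →
  QQ (z 0 ^ 2) (z 1 ^ 2) (z 2 ^ 2) (z 3 ^ 2) = 0 → Algebra.trdeg L K ≤ 1 ∨ GenType L K

-- deps:
def S_G1 : Prop := ∀ (K : Type u) [Field K] [Algebra L K] [FF L K], RegD L K → genus L K ≤ 1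

-- deps:
def S_RAT : Prop := ∀ (K : Type u) [Field K] [Algebra L K] [FF L K], Ratl L K → RegD L K

-- deps: RAT
def S_WEI : Prop := ∀ (K : Type u) [Field K] [Algebra L K] [FF L K], Wei L K → RegD L K

-- deps:
def S_NORM : Prop := ∀ (K : Type u) [Field K] [Algebra L K] (s w : K) (A B : L),
  Transcendental L s → w ^ 2 = s ^ 3 + algebraMap L K A * s + algebraMap L K B → L⟮s, w⟯ = ⊤ →
    Ratl L K ∨ Wei L K

-- deps:
def S_FFW : Prop := ∀ (K : Type u) [Field K] [Algebra L K], Ratl L K ∨ Wei L K → FF L K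

-- deps:
def S_FFX : Prop := ∀ (K K' : Type u) [Field K] [Algebra L K] [Field K'] [Algebra L K']
  [Algebra K K'] [IsScalarTower L K K'] [FF L K] [FiniteDimensional K K'] (t : K),
  Transcendental L t → FF L K' ∧ finrank K K' ≤ finrank L⟮algebraMap K K' t⟯ K'

-- deps:
def S_STEPR : Prop := ∀ (K : Type u) [Field K] [Algebra L K] [FF L K], Ratl L K →
  ∃ (K' : Type u) (_ : Field K') (_ : Algebra L K') (_ : Algebra K K') (_ : IsScalarTower L K K'),
    FiniteDimensional K K' ∧ 2 ≤ finrank K K' ∧ Ratl L K'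

-- deps:
def S_STEPW : Prop := ∀ (K : Type u) [Field K] [Algebra L K] [FF L K], Wei L K → Ratl L K ∨
  ∃ (K' : Type u) (_ : Field K') (_ : Algebra L K') (_ : Algebra K K') (_ : IsScalarTower L K K'),
    FiniteDimensional K K' ∧ 2 ≤ finrank K K' ∧ Wei L K'

-- deps: FFW STEPR STEPW
def S_TOW : Prop := ∀ (K : Type u) [Field K] [Algebra L K], Ratl L K ∨ Wei L K → ∀ N : ℕ,
  ∃ (K' : Type u) (_ : Field K') (_ : Algebra L K') (_ : Algebra K K') (_ : IsScalarTower L K K'),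
    FiniteDimensional K K' ∧ N ≤ finrank K K' ∧ (Ratl L K' ∨ Wei L K')

-- deps:
def S_UNR0 : Prop := ∀ (K K' : Type u) [Field K] [Algebra L K] [Field K'] [Algebra L K']
  [Algebra K K'] [IsScalarTower L K K'] (m : K') (T : K), m ^ 2 = algebraMap K K' T → K⟮m⟯ = ⊤ →
  ∀ P : Place L K', (∃ c : K, P.v m = P.v (algebraMap K K' c)) →
    ∃ Q : Place L K, ∀ x : K, Q.v x = P.v (algebraMap K K' x)

-- deps:
def S_UNR : Prop := ∀ (K K' : Type u) [Field K] [Algebra L K] [Field K'] [Algebra L K']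
  [Algebra K K'] [IsScalarTower L K K'] [FF L K] [FF L K'],
  (∀ P : Place L K', ∃ Q : Place L K, ∀ x : K, Q.v x = P.v (algebraMap K K' x)) →
    RegD L K → RegD L K'

-- deps:
-- imports: Pool.Agent.P.MP_6f117a_ag.PJ.TTD
def S_TERN : Prop := ∀ (K : Type u) [Field K] [Algebra L K] [FF L K] (y : Fin 3 → K),
  ∃ (g : MvPolynomial (Fin 3) L) (e : ℕ), g ≠ 0 ∧ g.IsHomogeneous e ∧ aeval y g = 0

-- deps:
def S_DEGL : Prop := ∀ (K : Type u) [Field K] [Algebra L K] [FF L K] (n : ℕ) (y : Fin (n + 1) → K)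
  (i j : Fin (n + 1)), y i ≠ 0 → Transcendental L (y j / y i) →
    (finrank L⟮y j / y i⟯ K : ℤ) ≤ degree L y

end Pool.Agent.P.MP_50039c_nt.LV
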