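import Pool.Agent.P.MP_50039c_nt.LV.Finl
import Pool.Agent.P.MP_50039c_nt.LV.IfaceB

/-! The curves of genus at most one on the cuboid surface. -/

set_option autoImplicit false

namespace Pool.Agent.P.MP_50039c_nt.LV

open MvPolynomial Module Pool.Agent.P.MP_6f117a_ag PJ
open scoped IntermediateField

universe u

theorem map_QQ {R S F : Type*} [CommRing R] [CommRing S] [FunLike F R S] [RingHomClass F R S]
    (f : F) (A B C T : R) : f (QQ A B C T) = QQ (f A) (f B) (f C) (f T) := by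
  simp [QQ, map_ofNat]

variable (L : Type u) [Field L]

/-- The equation of the surface. -/
noncomputable def PF : MvPolynomial (Fin 4) L := QQ (X 0 ^ 2) (X 1 ^ 2) (X 2 ^ 2) (X 3 ^ 2)

theorem PF_hom : (PF L).IsHomogeneous 12 := by
  have h := fun i : Fin 4 => isHomogeneous_X_pow (R := L) i 2
  have h4 : (4 : MvPolynomial (Fin 4) L).IsHomogeneous 0 := isHomogeneous_C _ (4 : L)
  have a := ((h 3).add (h 0)).pow 2
  have b := ((h 3).add (h 1)).pow 2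
  exact (((a.mul b).sub ((h4.mul (h 3)).mul (((h 0).mul b).add ((h 1).mul a)))).mul
    (((h 3).add (h 2)).pow 2)).add ((((h4.mul (h 2)).mul (h 3)).mul a).mul b)

theorem main_of [IsAlgClosed L] [CharZero L] (hDEG : S_DEG L) (hG1 : S_G1 L) (hRAT : S_RAT L)
    (hWEI : S_WEI L) (hFFW : S_FFW L) (hFFX : S_FFX L) (hTOW : S_TOW L) (hUNR0 : S_UNR0 L)
    (hUNR : S_UNR L) (hTERN : S_TERN L) (hDEGL : S_DEGL L) (hEVEN : S_EVEN L) :
    ∃ (G : MvPolynomial (Fin 3) L) (e : ℕ), G ≠ 0 ∧ G.IsHomogeneous e ∧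
      ∀ (K : Type u) [Field K] [Algebra L K], Ratl L K ∨ Wei L K → ∀ (y : Fin 3 → K) (T : K),
        QQ (y 0 ^ 2) (y 1 ^ 2) (y 2 ^ 2) T = 0 →
          (∃ i j, y i ≠ 0 ∧ Transcendental L (y j / y i)) → aeval y G = 0 := by
  classical
  have ev : ∀ {K : Type u} [Field K] [Algebra L K] (z : Fin 4 → K),
      aeval z (PF L) = QQ (z 0 ^ 2) (z 1 ^ 2) (z 2 ^ 2) (z 3 ^ 2) := fun z => by
    simp [PF, map_QQ]
  obtain ⟨N, hN⟩ := fin_low (n := 3) (Ideal.span {PF L}) fun K _ _ x h1 h2 h3 =>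
    hDEG K x h1 h2 (ev x ▸ h3 _ (Ideal.mem_span_singleton_self _) _ (PF_hom L))
  have : ∀ Φ ∈ Cl N (Ideal.span {PF L}), ∃ (g : MvPolynomial (Fin 3) L) (e : ℕ), g ≠ 0 ∧
      g.IsHomogeneous e ∧ Φ (rename Fin.castSucc g) := by
    rintro _ ⟨K, _, _, _, ξ, -, -, -, -, rfl⟩
    obtain ⟨g, e, h1, h2, h3⟩ := hTERN K (ξ ∘ Fin.castSucc)
    exact ⟨g, e, h1, h2, ⟨e, h2.rename_isHomogeneous⟩, by rwa [aeval_rename]⟩
  choose! g e g0 gh gΦ using this
  refine ⟨∏ Φ ∈ hN.toFinset, g Φ, ∑ Φ ∈ hN.toFinset, e Φ,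
    Finset.prod_ne_zero_iff.2 fun Φ h => g0 Φ (hN.mem_toFinset.1 h),
    .prod _ _ _ fun Φ h => gh Φ (hN.mem_toFinset.1 h), fun K _ _ hK y T hQ ⟨i, j, hi, ht⟩ => ?_⟩
  have := hFFW K hK
  obtain ⟨K₁, _, _, _, _, f1, n1, hK₁⟩ := hTOW K hK (N + 1)
  have := hFFW K₁ hK₁
  obtain ⟨m, hm⟩ := IsAlgClosed.exists_pow_nat_eq
    (algebraMap K₁ (AlgebraicClosure K₁) (algebraMap K K₁ T)) two_pos
  let K₂ := K₁⟮m⟯
  have f2 : FiniteDimensional K₁ K₂ :=
    IntermediateField.adjoin.finiteDimensional (Algebra.IsIntegral.isIntegral m)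
  let m' : K₂ := IntermediateField.AdjoinSimple.gen K₁ m
  have hm' : m' ^ 2 = algebraMap K₁ K₂ (algebraMap K K₁ T) := Subtype.ext hm
  have top : K₁⟮m'⟯ = ⊤ := by
    apply IntermediateField.lift_injective
    rw [IntermediateField.lift_adjoin_simple, IntermediateField.lift_top]
    rfl
  let φ : K →ₐ[L] K₂ := (IsScalarTower.toAlgHom L K₁ K₂).comp (IsScalarTower.toAlgHom L K K₁)
  have hφ : ∀ x, φ x = algebraMap K₁ K₂ (algebraMap K K₁ x) := fun _ => rfl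
  have t1 : Transcendental L (algebraMap K K₁ (y j / y i)) :=
    (transcendental_algebraMap_iff (algebraMap K K₁).injective).2 ht
  obtain ⟨ff2, -⟩ := hFFX K₁ K₂ _ t1
  let ξ : Fin 4 → K₂ := Fin.snoc (fun l => φ (y l)) m'
  have x0 : ∀ l : Fin 3, ξ l.castSucc = φ (y l) := fun l => Fin.snoc_castSucc ..
  have q2 : QQ (φ (y 0) ^ 2) (φ (y 1) ^ 2) (φ (y 2) ^ 2) (m' ^ 2) = 0 := by
    simpa only [map_QQ, map_pow, map_zero, hm', ← hφ] using congrArg φ hQ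
  have reg : RegD L K₂ := hUNR K₁ K₂ (fun P => hUNR0 K₁ K₂ m' _ hm' top P (by
    rcases hEVEN K₂ P.v _ _ _ _ q2 with h | h | h <;> exact ⟨_, h⟩))
    (hK₁.elim (hRAT K₁) (hWEI K₁))
  have xi : ξ i.castSucc ≠ 0 := by simpa [x0] using hi
  have e1 : ξ j.castSucc / ξ i.castSucc = algebraMap K₁ K₂ (algebraMap K K₁ (y j / y i)) := by
    rw [x0, x0, ← map_div₀, hφ]
  have t2 : Transcendental L (ξ j.castSucc / ξ i.castSucc) :=
    e1 ▸ (transcendental_algebraMap_iff (algebraMap K₁ K₂).injective).2 t1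
  have d1 := hDEGL K₂ 3 ξ _ _ xi t2
  have : IsScalarTower L K K₂ := .of_algebraMap_eq fun c => by
    rw [IsScalarTower.algebraMap_apply K K₁ K₂, ← hφ, φ.commutes]
  have : FiniteDimensional K K₂ := .trans K K₁ K₂
  have d2 : finrank K K₂ ≤ finrank L⟮ξ j.castSucc / ξ i.castSucc⟯ K₂ :=
    e1 ▸ IsScalarTower.algebraMap_apply K K₁ K₂ _ ▸ (hFFX K K₂ _ ht).2
  have d3 : finrank K K₁ ≤ finrank K K₂ :=
    LinearMap.finrank_le_finrank_of_injective (f := (IsScalarTower.toAlgHom K K₁ K₂).toLinearMap)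
      (algebraMap K₁ K₂).injective
  have mem : Form L ξ ∈ Cl N (Ideal.span {PF L}) := ⟨K₂, _, _, ff2, ξ, ⟨_, _, xi, t2⟩,
    hG1 K₂ reg, by omega, (Ideal.span_singleton_le_iff_mem _).2
      ((mem_ker ξ (PF_hom L)).2 ((ev ξ).trans q2)), rfl⟩
  have h1 := (gΦ _ mem).2
  rw [aeval_rename, show ξ ∘ Fin.castSucc = fun l => φ (y l) from funext x0,
    ← MvPolynomial.comp_aeval_apply, map_eq_zero] at h1
  rw [map_prod]
  exact Finset.prod_eq_zero (hN.mem_toFinset.2 mem) h1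

end Pool.Agent.P.MP_50039c_nt.LV
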