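import Pool.Agent.P.MP_50039c_nt.LV.IfaceB

/-! Step G1. -/

set_option autoImplicit false
set_option linter.unusedSectionVars false

namespace Pool.Agent.P.MP_50039c_nt.LV

open MvPolynomial Module Pool.Agent.P.MP_6f117a_ag PJ
open scoped IntermediateField

universe u

theorem p_G1 (L : Type u) [Field L] [IsAlgClosed L] [CharZero L] :
    S_G1 L := by
  rintro K _ _ _ ⟨δ, h0, h⟩
  rw [genus_eq h0]
  have hle : can δ ≤ Submodule.span L {(1 : K)} := by
    intro x hx
    rcases const_or_trans (L := L) x with ⟨c, rfl⟩ | ht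
    · exact Submodule.mem_span_singleton.2 ⟨c, by rw [Algebra.smul_def, mul_one]⟩
    · obtain ⟨P, hP⟩ := exists_pole ht
      have h1 := (mem_can.1 hx P).trans (WithZero.exp_le_exp.2 (h P))
      rw [WithZero.exp_zero] at h1
      exact absurd hP (not_lt.2 h1)
  exact (Submodule.finrank_mono hle).trans (finrank_span_singleton one_ne_zero).le

end Pool.Agent.P.MP_50039c_nt.LV
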