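import Pool.Agent.P.MP_50039c_nt.LV.IfaceA

/-! Step TB. -/

set_option autoImplicit false
set_option linter.unusedSectionVars false

namespace Pool.Agent.P.MP_50039c_nt.LV

open Module

universe u

theorem p_TB (L : Type u) [Field L] [IsAlgClosed L] [CharZero L] :
    S_TB L := by
  intro K _ _ i f g u v hT top ht
  have halg : Algebra.IsAlgebraic (Algebra.adjoin L (Set.range ![f, g])) K := by
    rw [← IntermediateField.isAlgebraic_adjoin_iff_top]
    set E := IntermediateField.adjoin L (Set.range ![f, g])
    have hf : f ∈ E := IntermediateField.subset_adjoin _ _ ⟨0, rfl⟩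
    have hg : g ∈ E := IntermediateField.subset_adjoin _ _ ⟨1, rfl⟩
    have hm : ∀ x ∈ E, ∀ j, mob i x j ∈ E := fun x hx j => by
      have hi := E.algebraMap_mem i
      fin_cases j
      · exact hx
      · exact div_mem (sub_mem hx (one_mem _)) (add_mem hx (one_mem _))
      · exact div_mem (sub_mem hx hi) (add_mem hx hi)
    have hsq : ∀ x : K, x ^ 2 ∈ E → IsIntegral E x := fun x hx =>
      .of_pow (n := 2) (by omega) (isIntegral_algebraMap (x := (⟨_, hx⟩ : E)))
    have h3 : ∀ x ∈ Set.range u ∪ Set.range v, IsIntegral E x := by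
      rintro _ (⟨j, rfl⟩ | ⟨j, rfl⟩)
      · obtain ⟨-, -, h1, h2⟩ := hT j
        refine hsq _ ?_
        have e : u j ^ 2 = mob i f j * mob i g j := by
          rw [← h1]; linear_combination u j * h2
        exact e ▸ mul_mem (hm f hf j) (hm g hg j)
      · obtain ⟨h0, -, h1, h2⟩ := hT j
        refine hsq _ ?_
        have hB : mob i g j ≠ 0 := fun e => h0 (by rw [h2, e, mul_zero])
        have e : v j ^ 2 = mob i f j / mob i g j := by
          rw [eq_div_iff hB, ← h1]; linear_combination (-v j) * h2
        exact e ▸ div_mem (hm f hf j) (hm g hg j)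
    have h4 : (algebraicClosure E K).restrictScalars L = ⊤ :=
      top_le_iff.1 (top ▸ IntermediateField.adjoin_le_iff.2 (fun x hx => h3 x hx))
    exact ⟨fun t => (show IsIntegral E t from
      (h4.ge (IntermediateField.mem_top (x := t)))).isAlgebraic⟩
  exact Algebra.IsAlgebraic.isTranscendenceBasis_of_lift_le_trdeg_of_finite L _ (by simpa using ht)

end Pool.Agent.P.MP_50039c_nt.LV
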