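import Pool.Agent.P.MP_50039c_nt.LV.IfaceB
import Pool.Agent.P.MP_6f117a_ag.PJ.TTD

/-! Step TERN. -/

set_option autoImplicit false
set_option linter.unusedSectionVars false

namespace Pool.Agent.P.MP_50039c_nt.LV

open MvPolynomial Module Pool.Agent.P.MP_6f117a_ag PJ
open scoped IntermediateField

universe u

theorem p_TERN (L : Type u) [Field L] [IsAlgClosed L] [CharZero L] :
    S_TERN L := by
  intro K _ _ _ y
  by_cases h0 : y 0 = 0
  · exact ⟨X 0, 1, X_ne_zero _, isHomogeneous_X _ _, by simpa using h0⟩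
  have hdep : ¬ AlgebraicIndependent L (fun j : Fin 2 => y j.succ / y 0) := by
    intro hw
    have h1 := hw.transcendental_adjoin (s := {0}) (i := 1) (by simp)
    rw [Set.image_singleton, ← IntermediateField.transcendental_adjoin_iff] at h1
    have := FF.fin (L := L) _ (hw.transcendental 0)
    exact h1 (Algebra.IsAlgebraic.isAlgebraic _)
  rw [algebraicIndependent_iff] at hdep
  push Not at hdep
  obtain ⟨p, hp, hne⟩ := hdep
  refine ⟨TTD.hom 0 (rename Fin.succ p), _, fun hz => hne ?_, TTD.hom_hom _ _, ?_⟩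
  · have h1 := TTD.aeval_hom (K := FractionRing (MvPolynomial (Fin 2) L)) 0 (rename Fin.succ p)
      (Fin.cons 1 fun j => algebraMap (MvPolynomial (Fin 2) L) _ (X j)) (by simp)
    rw [hz, map_zero, aeval_rename] at h1
    have h2 : ((fun j : Fin 3 => (Fin.cons 1 (fun j => algebraMap (MvPolynomial (Fin 2) L) _ (X j)) :
        Fin 3 → FractionRing (MvPolynomial (Fin 2) L)) j /
        (Fin.cons 1 (fun j => algebraMap (MvPolynomial (Fin 2) L) _ (X j)) :
        Fin 3 → FractionRing (MvPolynomial (Fin 2) L)) 0) ∘ Fin.succ) =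
        algebraMap (MvPolynomial (Fin 2) L) _ ∘ X := by
      funext j
      simp
    rw [h2, aeval_algebraMap_apply, aeval_X_left_apply] at h1
    simpa using h1.symm
  · rw [TTD.aeval_hom 0 _ y h0, aeval_rename]
    exact mul_eq_zero_of_right _ hp

end Pool.Agent.P.MP_50039c_nt.LV
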